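import Pool.Agent.Lib.MP_3b3418_ag.PV.SpecM

/-!
# From cochains on the Springer resolution to cochains of the Borel subgroup
-/

set_option autoImplicit false

namespace PV

open MP3s

private theorem BA_nf_proj {m : ℕ} (ν : Nn m) : nf ν ∘ₗ proj ν = red ν :=
  LinearMap.ext fun p => nf_proj ν p

private theorem BA_nf_dil {m : ℕ} (hRd : ∀ (c : ℂ) (ν : Nn m) (p : Tot m),
    red (scN c ν) (dilTot c p) = dilTot c (red ν p)) (c : ℂ) (ν : Nn m) :
    nf (scN c ν) ∘ₗ dilT c ν = dilTot c ∘ₗ nf ν := by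
  refine LinearMap.ext fun v => ?_
  obtain ⟨p, rfl⟩ := Submodule.mkQ_surjective (OrbT ν) v
  change nf (scN c ν) (proj (scN c ν) (dilTot c p)) = dilTot c (nf ν (proj ν p))
  rw [nf_proj, nf_proj, hRd]

private theorem BA_nf_conj {m : ℕ}
    (h3 : ∀ (b : Bo m) (ν : Nn m) (p : Tot m), red ν (Ad b (red (cN b ν) p)) = red ν (Ad b p))
    (h5 : ∀ (b : Bo m) (p : Tot m), Ad b (conjTot b.1 b.2 p) = p) (b : Bo m) (ν : Nn m) :
    (red ν ∘ₗ Ad b) ∘ₗ (nf (cN b ν) ∘ₗ (conjT b.1 b.2 ν ∘ₗ proj ν)) = red ν := by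
  refine LinearMap.ext fun p => ?_
  change red ν (Ad b (nf (cN b ν) (proj (cN b ν) (conjTot b.1 b.2 p)))) = red ν p
  rw [nf_proj, h3, h5]

theorem tBA : S_Mor → S_Rd → S_BA := by
  intro _ hRd m j p k ρM hM θ hθ s hs
  obtain ⟨r1, r2, r3, r4, r5, -, -⟩ := hRd m
  obtain ⟨P, hP, hval⟩ := s.regular
  -- the joint function
  have hV : Reg fun y : SLm m × Nn m × (Fin (p + 1) → Bo m) => wL j (red y.2.1) (P y) :=
    Reg.act (θ := fun ν : Nn m => wL j (red ν)) (fun w => (r4 j w).1)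
      (g := fun y : SLm m × Nn m × (Fin (p + 1) → Bo m) => y.2.1) (Mor.fst.comp Mor.snd) hP
  have hVal : ∀ g ν β, wL j (red ν) (P (g, ν, β)) = wL j (nf ν) (s.val g ν β) := by
    intro g ν β
    rw [hval, wmap_eq, wL_comp, BA_nf_proj]
  -- values in the module of the normal forms
  have hmem : ∀ (g : SLm m) (β : Fin (p + 1) → Bo m),
      (fun ν => wL j (red ν) (P (g, ν, β))) ∈ Mjk m j k := by
    intro g β
    refine ⟨?_, fun ν => ?_, fun c hc ν => ?_⟩
    · have hm : Mor fun ν : Nn m => ((g, ν, β) : SLm m × Nn m × (Fin (p + 1) → Bo m)) :=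
        (Mor.const g).pair (Mor.id.pair (Mor.const β))
      have h := hV.comp hm
      exact h
    · beta_reduce
      rw [wL_comp]
      congr 2
      exact LinearMap.ext fun q => r1 ν ν q
    · beta_reduce
      rw [hVal, hVal, hs c hc g ν β, map_smul, wmap_eq, wL_comp, wL_comp, BA_nf_dil r2]
  let q : SLm m → (Fin (p + 1) → Bo m) → Mjk m j k := fun g β =>
    ⟨fun ν => wL j (red ν) (P (g, ν, β)), hmem g β⟩
  -- regularity
  have hq2 : Reg fun y : (Fin (p + 1) → Bo m) × SLm m => q y.2 y.1 := by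
    have hm : Mor fun z : ((Fin (p + 1) → Bo m) × SLm m) × Nn m =>
        ((z.1.2, z.2, z.1.1) : SLm m × Nn m × (Fin (p + 1) → Bo m)) :=
      (Mor.snd.comp Mor.fst).pair (Mor.snd.pair (Mor.fst.comp Mor.fst))
    have h0 := hV.comp hm
    have h1 : Reg fun z : ((Fin (p + 1) → Bo m) × SLm m) × Nn m =>
        wL j (red z.2) (P (z.1.2, z.2, z.1.1)) := h0
    have h2' := h1.curry
    have h2 : Reg fun y : (Fin (p + 1) → Bo m) × SLm m =>
        (fun ν : Nn m => wL j (red ν) (P (y.2, ν, y.1)) : Nn m → Wedge j (Tot m)) := h2'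
    have h3 := h2.codRestrict (Mjk m j k) fun y => hmem y.2 y.1
    exact h3
  have hq1 : ∀ β : Fin (p + 1) → Bo m, Reg fun g : SLm m => q g β := by
    intro β
    have hm : Mor fun g : SLm m => ((β, g) : (Fin (p + 1) → Bo m) × SLm m) :=
      (Mor.const β).pair Mor.id
    have h := hq2.comp hm
    exact h
  let φ : (Fin (p + 1) → Bo m) → RG m (Mjk m j k) := fun β => ⟨fun g => q g β, hq1 β⟩
  refine ⟨φ, ⟨?_, fun b β => ?_⟩, fun β g ν => hVal g ν β⟩
  · have h1 := hq2.curry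
    have h2 : Reg fun β : Fin (p + 1) → Bo m => (fun g : SLm m => q g β : SLm m → Mjk m j k) :=
      h1
    have h3 := h2.codRestrict (RG m (Mjk m j k)) fun β => hq1 β
    exact h3
  · refine Subtype.ext (funext fun g => Subtype.ext (funext fun ν => ?_))
    rw [hθ, hM]
    change wL j (red ν) (P (g, ν, fun r => b * β r)) =
      wL j (red ν) (wL j (Ad b) (wL j (red (cN b ν)) (P (g * b.1, cN b ν, β))))
    have h1 := s.equivariant b g ν fun r => b * β r
    have h2 : (fun r => b⁻¹ * (b * β r)) = β := funext fun r => inv_mul_cancel_left b (β r)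
    rw [h2] at h1
    have h3 : s.val (g * b.1) (cN b ν) β =
        wL j (conjT b.1 b.2 ν) (wL j (proj ν) (P (g, ν, fun r => b * β r))) := by
      rw [← wmap_eq j (proj ν), ← hval]
      exact h1
    rw [hVal (g * b.1) (cN b ν) β, h3]
    have h4 : wL j (nf (cN b ν)) (wL j (conjT b.1 b.2 ν)
        (wL j (proj ν) (P (g, ν, fun r => b * β r)))) =
        wL j (nf (cN b ν) ∘ₗ (conjT b.1 b.2 ν ∘ₗ proj ν)) (P (g, ν, fun r => b * β r)) := by
      have e1 := wL_comp j (proj ν) (conjT b.1 b.2 ν) (P (g, ν, fun r => b * β r))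
      exact (congrArg (wL j (nf (cN b ν))) e1).trans
        (wL_comp j (conjT b.1 b.2 ν ∘ₗ proj ν) (nf (cN b ν)) (P (g, ν, fun r => b * β r)))
    have h5 := BA_nf_conj r3 (fun b p => (r5 b 1 p 1).2.2.2) b ν
    rw [h4, wL_comp, wL_comp]
    exact (congrArg (fun f => wL j f (P (g, ν, fun r => b * β r))) h5).symm

end PV
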