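import Pool.Agent.Lib.MP_3b3418_ag.PV.SpecM

/-!
# The bridge to the cohomology of `Ñ`: assembly
-/

set_option autoImplicit false

namespace PV

open MP3s

/-- The evaluation at `(g, ν)`. -/
private def BC_ev {m j : ℕ} {k : ℤ} (g : SLm m) (ν : Nn m) :
    RG m (Mjk m j k) →ₗ[ℂ] Wedge j (Tot m) where
  toFun F := (F.1 g).1 ν
  map_add' _ _ := rfl
  map_smul' _ _ := rfl

private theorem BC_ext {m j : ℕ} {k : ℤ} {F F' : RG m (Mjk m j k)}
    (h : ∀ g ν, BC_ev g ν F = BC_ev g ν F') : F = F' := by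
  refine Subtype.ext (funext fun g => Subtype.ext (funext fun ν => ?_))
  exact h g ν

private theorem BC_cob {m j : ℕ} {k : ℤ} (p : ℕ) (φ : (Fin (p + 1) → Bo m) → RG m (Mjk m j k))
    (g : SLm m) (ν : Nn m) (β : Fin (p + 2) → Bo m) : BC_ev g ν (cob p φ β) =
      ∑ r : Fin (p + 2), (-1 : ℂ) ^ (r : ℕ) • BC_ev g ν (φ fun q => β (r.succAbove q)) := by
  unfold cob
  rw [map_sum]
  exact Finset.sum_congr rfl fun r _ => by rw [map_smul]

private theorem BC_aux {V W : Type} [AddCommGroup V] [Module ℂ V] [AddCommGroup W] [Module ℂ W]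
    (T : V →ₗ[ℂ] V) (e : V →ₗ[ℂ] W) (v : V) :
    e ((T - LinearMap.id : V →ₗ[ℂ] V) v) = e (T v) - e v := by
  rw [LinearMap.sub_apply, map_sub, LinearMap.id_apply]

theorem tBC : S_RGa → S_BA → S_BB → S_BC := by
  intro hRGa hBA hBB m i j ρM hM hRat hTrv s hs hcl x
  obtain ⟨⟨θ, hθ⟩, ⟨τ, hτ⟩, -, -⟩ := hRGa m (Mjk m j (-((i : ℤ) + j))) ρM hRat
  obtain ⟨φ, hφ, hval⟩ := hBA m j i _ ρM hM θ hθ s hs
  have hval' : ∀ g ν β, BC_ev g ν (φ β) = wL j (nf ν) (s.val g ν β) := fun g ν β => hval β g ν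
  have hrec : ∀ g ν β, s.val g ν β = wL j (proj ν) (BC_ev g ν (φ β)) := by
    intro g ν β
    have h2 : proj ν ∘ₗ nf ν = LinearMap.id := LinearMap.ext (proj_nf ν)
    rw [hval', wL_comp, h2, wL_id]
  have hcob : cob i φ = 0 := by
    funext β
    refine BC_ext fun g ν => ?_
    rw [BC_cob]
    have h3 : ∑ r : Fin (i + 2), (-1 : ℂ) ^ (r : ℕ) • BC_ev g ν (φ fun q => β (r.succAbove q)) =
        wL j (nf ν) (s.dval g ν β) := by
      unfold Chain.dval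
      rw [map_sum]
      exact Finset.sum_congr rfl fun r _ => by rw [map_smul, hval']
    rw [h3, hcl g ν β, map_zero]
    exact (map_zero (BC_ev g ν)).symm
  obtain ⟨χ, hdiff, hz⟩ : ∃ χ : (Fin (i + 1) → Bo m) → RG m (Mjk m j (-((i : ℤ) + j))),
      (∀ g ν β, BC_ev g ν (χ β) = BC_ev (x⁻¹ * g) ν (φ β) - BC_ev g ν (φ β)) ∧ IsCob θ i χ := by
    refine ⟨_, ?_, hTrv θ hθ τ hτ x φ hφ hcob⟩
    intro g ν β
    refine (BC_aux (V := RG m (Mjk m j (-((i : ℤ) + j)))) (W := Wedge j (Tot m)) (τ x)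
      (BC_ev g ν) (φ β)).trans ?_
    have h6 : BC_ev g ν (τ x (φ β)) = BC_ev (x⁻¹ * g) ν (φ β) :=
      congrArg (fun q : Mjk m j (-((i : ℤ) + j)) => q.1 ν) (hτ x (φ β) g)
    rw [h6]
  cases i with
  | zero =>
    intro g ν β
    change s.val (x⁻¹ * g) ν β = s.val g ν β
    have hz0 : χ = 0 := hz
    have h4 := hdiff g ν β
    have h5 : BC_ev g ν (χ β) = 0 := by
      rw [hz0]
      exact map_zero (BC_ev g ν)
    rw [h5] at h4
    rw [hrec, hrec g, sub_eq_zero.1 h4.symm]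
  | succ p =>
    obtain ⟨ψ, hψ, hcψ⟩ := hz
    obtain ⟨t, ht, htv⟩ := hBB m j p _ ρM hM θ hθ ψ hψ
    refine ⟨t, ht, fun g ν β => ?_⟩
    change s.val (x⁻¹ * g) ν β - s.val g ν β = t.dval g ν β
    have h5 : χ β = cob p ψ β := (congrFun hcψ β).symm
    rw [hrec, hrec g, ← map_sub, ← hdiff, h5, BC_cob, map_sum]
    unfold Chain.dval
    refine Finset.sum_congr rfl fun r _ => ?_
    rw [map_smul, htv]
    rfl

end PV
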