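import Pool.Agent.Lib.MP_3b3418_ag.PV.SpecM

/-!
# Module Bt: scores of a tournament

Sums over the pairs `a < b` are written as sums over one vertex.
-/

set_option autoImplicit false

namespace PV

open MP3s

/-- A function of two variables, zero off `a < b`, summed over the pairs. -/
private theorem Bt_prod {m : ℕ} (G : Fin m → Fin m → ℤ) (hG : ∀ a b, ¬ a < b → G a b = 0) :
    ∑ p : Pr m, G p.1.1 p.1.2 = ∑ a, ∑ b, G a b := by
  rw [← Fintype.sum_prod_type']
  rw [← Finset.sum_subtype (Finset.univ.filter fun x : Fin m × Fin m => x.1 < x.2)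
    (fun x => by simp) fun x : Fin m × Fin m => G x.1 x.2]
  refine Finset.sum_subset (Finset.subset_univ _) fun x _ hx => hG _ _ fun h => hx ?_
  exact Finset.mem_filter.mpr ⟨Finset.mem_univ _, h⟩

/-- The coordinate `v` of a sum of roots. -/
private theorem Bt_sum {m : ℕ} (F : Pr m → ℤ) (v : Fin m) :
    ∑ p : Pr m, F p * rt p v = (∑ w, if h : v < w then F ⟨(v, w), h⟩ else 0) -
      ∑ w, if h : w < v then F ⟨(w, v), h⟩ else 0 := by
  have h1 : ∀ p : Pr m, F p * rt p v =
      (fun a b => (if h : a < b then F ⟨(a, b), h⟩ else 0) *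
        ((if v = a then 1 else 0) - if v = b then 1 else 0)) p.1.1 p.1.2 := by
    intro p
    have h2 : (if h : p.1.1 < p.1.2 then F ⟨(p.1.1, p.1.2), h⟩ else 0) = F p := dif_pos p.2
    beta_reduce
    rw [h2]
    rfl
  refine (Finset.sum_congr rfl fun p _ => h1 p).trans ((Bt_prod (fun a b : Fin m =>
    (if h : a < b then F ⟨(a, b), h⟩ else 0) * ((if v = a then 1 else 0) - if v = b then 1 else 0))
    fun a b hab => ?_).trans ?_)
  · rw [dif_neg hab, zero_mul]
  have h3 : ∀ a b : Fin m, (if h : a < b then F ⟨(a, b), h⟩ else 0) *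
      (((if v = a then 1 else 0) - if v = b then 1 else 0 : ℤ)) =
      (if v = a then (if h : a < b then F ⟨(a, b), h⟩ else 0) else 0) -
      (if v = b then (if h : a < b then F ⟨(a, b), h⟩ else 0) else 0) := by
    intro a b
    rw [mul_sub, mul_ite, mul_ite, mul_one, mul_zero]
  simp only [h3, Finset.sum_sub_distrib]
  congr 1
  · rw [Finset.sum_comm]
    exact Finset.sum_congr rfl fun w _ => by rw [Finset.sum_ite_eq]; simp
  · exact Finset.sum_congr rfl fun w _ => by rw [Finset.sum_ite_eq]; simp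

private theorem Bt_gt {m : ℕ} (v : Fin m) : (∑ w : Fin m, if v < w then (1 : ℤ) else 0) =
    del m v := by
  rw [Finset.sum_boole]
  have h : (Finset.univ.filter fun w : Fin m => v < w) = Finset.Ioi v := by
    ext w
    simp
  rw [h, Fin.card_Ioi]
  unfold del
  have := v.2
  omega

private theorem Bt_lt {m : ℕ} (v : Fin m) : (∑ w : Fin m, if w < v then (1 : ℤ) else 0) =
    (m : ℤ) - 1 - del m v := by
  rw [Finset.sum_boole]
  have h : (Finset.univ.filter fun w : Fin m => w < v) = Finset.Iio v := by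
    ext w
    simp
  rw [h, Fin.card_Iio]
  unfold del
  omega

private theorem Bt_score {m : ℕ} (A : Finset (Pr m)) (v : Fin m) : sc A v =
    (∑ w : Fin m, if v < w then (1 : ℤ) else 0) -
    (∑ w, if h : v < w then (if (⟨(v, w), h⟩ : Pr m) ∈ A then (1 : ℤ) else 0) else 0) +
    ∑ w, if h : w < v then (if (⟨(w, v), h⟩ : Pr m) ∈ A then (1 : ℤ) else 0) else 0 := by
  have h1 := Bt_sum (fun p : Pr m => if p ∈ A then (1 : ℤ) else 0) v
  have h2 : (∑ p : Pr m, (if p ∈ A then (1 : ℤ) else 0) * rt p v) = ∑ p ∈ A, rt p v := by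
    simp only [ite_mul, one_mul, zero_mul]
    rw [Finset.sum_ite_mem, Finset.univ_inter]
  rw [h2] at h1
  have h3 : sc A v = del m v - ∑ p ∈ A, rt p v := by
    unfold sc
    rw [Pi.sub_apply, Finset.sum_apply]
  rw [h3, h1, Bt_gt]
  ring

open Classical in
private theorem Bt_ind {m : ℕ} (A : Finset (Pr m)) (v w : Fin m) :
    (if Bt A v w then (1 : ℤ) else 0) = (if v < w then (1 : ℤ) else 0) -
    (if h : v < w then (if (⟨(v, w), h⟩ : Pr m) ∈ A then (1 : ℤ) else 0) else 0) +
    if h : w < v then (if (⟨(w, v), h⟩ : Pr m) ∈ A then (1 : ℤ) else 0) else 0 := by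
  rcases lt_trichotomy v w with h | h | h
  · have hb : Bt A v w ↔ (⟨(v, w), h⟩ : Pr m) ∉ A := by
      constructor
      · rintro (⟨_, h1⟩ | ⟨h1, _⟩)
        · exact h1
        · exact absurd h1 (not_lt.mpr h.le)
      · exact fun h1 => Or.inl ⟨h, h1⟩
    rw [if_pos h, dif_pos h, dif_neg (not_lt.mpr h.le)]
    by_cases h2 : (⟨(v, w), h⟩ : Pr m) ∈ A
    · rw [if_neg (fun h3 => hb.mp h3 h2), if_pos h2]
      norm_num
    · rw [if_pos (hb.mpr h2), if_neg h2]
      norm_num
  · subst h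
    have hb : ¬ Bt A v v := by
      rintro (⟨h1, _⟩ | ⟨h1, _⟩)
      · exact lt_irrefl _ h1
      · exact lt_irrefl _ h1
    rw [if_neg hb, if_neg (lt_irrefl v), dif_neg (lt_irrefl v)]
    norm_num
  · have hb : Bt A v w ↔ (⟨(w, v), h⟩ : Pr m) ∈ A := by
      constructor
      · rintro (⟨h1, _⟩ | ⟨_, h1⟩)
        · exact absurd h1 (not_lt.mpr h.le)
        · exact h1
      · exact fun h1 => Or.inr ⟨h, h1⟩
    rw [if_neg (not_lt.mpr h.le), dif_neg (not_lt.mpr h.le), dif_pos h]
    by_cases h2 : (⟨(w, v), h⟩ : Pr m) ∈ A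
    · rw [if_pos (hb.mpr h2), if_pos h2]
      norm_num
    · rw [if_neg (fun h3 => h2 (hb.mp h3)), if_neg h2]
      norm_num

theorem tBt : S_Bt := by
  intro m A
  refine ⟨fun v => ?_, fun v w hvw => ?_, ?_, fun v => ?_⟩
  · rw [Bt_score, ← Finset.sum_boole, ← Finset.sum_sub_distrib, ← Finset.sum_add_distrib]
    exact Finset.sum_congr rfl fun w _ => (Bt_ind A v w).symm
  · constructor
    · rintro (⟨h, h1⟩ | ⟨h, h1⟩) (⟨h', h2⟩ | ⟨h', h2⟩)
      · exact absurd h' (not_lt.mpr h.le)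
      · exact h1 h2
      · exact h2 h1
      · exact absurd h' (not_lt.mpr h.le)
    · intro h
      rcases lt_or_gt_of_ne hvw with h1 | h1
      · exact Or.inl ⟨h1, fun h2 => h (Or.inr ⟨h1, h2⟩)⟩
      · by_contra h2
        exact h (Or.inl ⟨h1, fun h3 => h2 (Or.inr ⟨h1, h3⟩)⟩)
  · rintro v (⟨h, _⟩ | ⟨h, _⟩)
    · exact lt_irrefl _ h
    · exact lt_irrefl _ h
  · have h1 := Bt_sum (fun _ : Pr m => (1 : ℤ)) v
    simp only [one_mul, dite_eq_ite] at h1
    rw [h1, Bt_gt, Bt_lt]
    ring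

end PV
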