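import Pool.Agent.Lib.MP_3b3418_ag.PV.SpecM

/-!
# Combinatorics of the weights: assembly
-/

set_option autoImplicit false

namespace PV

open MP3s

/-- The set of the `p` with `(s, p)` in the range of `u`. -/
private def Cb_A {m j : ℕ} (s : Bool) (u : Fin j → Bool × Pr m) : Finset (Pr m) :=
  (Finset.univ.filter fun r => (u r).1 = s).image fun r => (u r).2

private theorem Cb_injOn {m j : ℕ} (s : Bool) (u : Fin j → Bool × Pr m)
    (hu : Function.Injective u) (r r' : Fin j) (hr : r ∈ Finset.univ.filter fun r => (u r).1 = s)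
    (hr' : r' ∈ Finset.univ.filter fun r => (u r).1 = s) (h : (u r).2 = (u r').2) : r = r' :=
  hu (Prod.ext ((Finset.mem_filter.1 hr).2.trans (Finset.mem_filter.1 hr').2.symm) h)

private theorem Cb_card {m j : ℕ} (s : Bool) (u : Fin j → Bool × Pr m)
    (hu : Function.Injective u) :
    (Cb_A s u).card = (Finset.univ.filter fun r => (u r).1 = s).card :=
  Finset.card_image_of_injOn fun r hr r' hr' h =>
    Cb_injOn s u hu r r' (Finset.mem_coe.1 hr) (Finset.mem_coe.1 hr') h

private theorem Cb_sum {m j : ℕ} (s : Bool) (u : Fin j → Bool × Pr m)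
    (hu : Function.Injective u) :
    ∑ p ∈ Cb_A s u, rt p = ∑ r ∈ Finset.univ.filter fun r => (u r).1 = s, rt (u r).2 :=
  Finset.sum_image fun r hr r' hr' h => Cb_injOn s u hu r r' hr hr' h

private theorem Cb_not {m j : ℕ} (u : Fin j → Bool × Pr m) :
    (Finset.univ.filter fun r => ¬ (u r).1 = true) = Finset.univ.filter fun r => (u r).1 = false :=
  Finset.filter_congr fun r _ => by
    rw [Bool.not_eq_true]

private theorem Cb_cards {m j : ℕ} (u : Fin j → Bool × Pr m) (hu : Function.Injective u) :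
    (Cb_A true u).card + (Cb_A false u).card = j := by
  rw [Cb_card true u hu, Cb_card false u hu, ← Cb_not u]
  have h := Finset.card_filter_add_card_filter_not (s := (Finset.univ : Finset (Fin j)))
    (fun r => (u r).1 = true)
  rw [Finset.card_univ, Fintype.card_fin] at h
  exact h

private theorem Cb_wt {m j : ℕ} (β : Pr m → ℕ) (u : Fin j → Bool × Pr m)
    (hu : Function.Injective u) :
    del m - wt β u = sc (Cb_A true u) + ∑ p ∈ Cb_A false u, rt p + ∑ p, (β p : ℤ) • rt p := by
  unfold wt sc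
  rw [Cb_sum true u hu, Cb_sum false u hu, ← Cb_not u, Finset.sum_ite, Finset.sum_neg_distrib]
  abel

/-- There are `m (m - 1) / 2` positive roots. -/
private theorem Cb_pr (m : ℕ) : 2 * Fintype.card (Pr m) = m * (m - 1) := by
  have h1 : Fintype.card (Pr m) =
      (Finset.univ.filter fun p : Fin m × Fin m => p.1 < p.2).card := by
    rw [Fintype.card_subtype]
  have h2 : (Finset.univ.filter fun p : Fin m × Fin m => p.1 < p.2).card =
      (Finset.univ.filter fun p : Fin m × Fin m => p.2 < p.1).card := by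
    refine Finset.card_bij (fun p _ => p.swap) ?_ ?_ ?_
    · intro p hp
      rw [Finset.mem_filter] at hp ⊢
      exact ⟨Finset.mem_univ _, hp.2⟩
    · intro p _ q _ h
      exact Prod.swap_injective h
    · intro p hp
      rw [Finset.mem_filter] at hp
      exact ⟨p.swap, Finset.mem_filter.2 ⟨Finset.mem_univ _, hp.2⟩, Prod.swap_swap p⟩
  have h3 : (Finset.univ : Finset (Fin m)).offDiag =
      (Finset.univ.filter fun p : Fin m × Fin m => p.1 < p.2) ∪
        Finset.univ.filter fun p : Fin m × Fin m => p.2 < p.1 := by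
    ext p
    rw [Finset.mem_offDiag, Finset.mem_union, Finset.mem_filter, Finset.mem_filter]
    constructor
    · rintro ⟨-, -, h⟩
      rcases lt_or_gt_of_ne h with h | h
      · exact Or.inl ⟨Finset.mem_univ _, h⟩
      · exact Or.inr ⟨Finset.mem_univ _, h⟩
    · rintro (⟨-, h⟩ | ⟨-, h⟩)
      · exact ⟨Finset.mem_univ _, Finset.mem_univ _, ne_of_lt h⟩
      · exact ⟨Finset.mem_univ _, Finset.mem_univ _, ne_of_gt h⟩
  have h4 := congrArg Finset.card h3
  rw [Finset.offDiag_card, Finset.card_univ, Fintype.card_fin, Finset.card_union_of_disjoint,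
    ← h2, ← h1] at h4
  · rw [two_mul, ← h4, Nat.mul_sub, Nat.mul_one]
  · rw [Finset.disjoint_left]
    intro p hp hp'
    rw [Finset.mem_filter] at hp hp'
    exact absurd hp.2 (not_lt.2 hp'.2.le)

private theorem Cb_core (hTs : S_Ts) (hDs : S_Ds) (hK1 : S_K1) {m i : ℕ} (A C : Finset (Pr m))
    (β : Pr m → ℕ) (η : Fin m → ℤ)
    (hη : η = sc A + ∑ p ∈ C, rt p + ∑ p, (β p : ℤ) • rt p)
    (h1 : C.card + ∑ p, β p ≤ 1) (h2 : A.card = i + C.card + 2 * ∑ p, β p)
    (hinj : Function.Injective η) (hinv : invn η = i) : IsPm η := by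
  rcases Nat.eq_zero_or_pos (∑ p, β p) with hb | hb
  · have hβ : ∑ p, (β p : ℤ) • rt p = 0 := by
      refine Finset.sum_eq_zero fun p hp => ?_
      rw [(Finset.sum_eq_zero_iff.1 hb) p hp, Nat.cast_zero, zero_smul]
    rcases Nat.eq_zero_or_pos C.card with hc | hc
    · have hs : η = sc A := by
        rw [hη, hβ, Finset.card_eq_zero.1 hc, Finset.sum_empty, add_zero, add_zero]
      refine hDs.1 m η hinj fun v => ?_
      rw [hs]
      exact (hTs m A).1 v
    · obtain ⟨p, hp⟩ := Finset.card_eq_one.1 (show C.card = 1 by omega)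
      refine hK1 m A p η ?_ hinj (by omega)
      rw [hη, hβ, hp, Finset.sum_singleton, add_zero]
  · have hc : C.card = 0 := by omega
    have hb1 : ∑ p, β p = 1 := by omega
    obtain ⟨p, hp⟩ : ∃ p, β p ≠ 0 := by
      by_contra h
      push Not at h
      rw [Finset.sum_eq_zero fun p _ => h p] at hb1
      exact absurd hb1 (by norm_num)
    have hsum := Finset.add_sum_erase Finset.univ β (Finset.mem_univ p)
    have hp1 : β p = 1 := by omega
    have hz : ∑ q ∈ Finset.univ.erase p, β q = 0 := by omega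
    refine hK1 m A p η ?_ hinj (by omega)
    rw [hη, Finset.card_eq_zero.1 hc, Finset.sum_empty, add_zero]
    congr 1
    rw [Finset.sum_eq_single p]
    · rw [hp1, Nat.cast_one, one_smul]
    · intro q _ hq
      rw [(Finset.sum_eq_zero_iff.1 hz) q (Finset.mem_erase.2 ⟨hq, Finset.mem_univ q⟩),
        Nat.cast_zero, zero_smul]
    · intro h
      exact absurd (Finset.mem_univ p) h

/-- The combinatorics of the weights, all together. -/
theorem tCb : S_Bt → S_Ts → S_Ds → S_K3 → S_K1 → S_Cb := by
  intro _ hTs hDs hK3 hK1 m i j hR β u hu hDg hinj hinv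
  have hη := Cb_wt β u hu
  have hcards := Cb_cards u hu
  have hA := Cb_card true u hu
  set η := del m - wt β u with hηd
  set A := Cb_A true u
  set C := Cb_A false u
  unfold Dg at hDg
  rw [← hA] at hDg
  have hb : ((∑ p, β p : ℕ) : ℤ) = ∑ p, (β p : ℤ) := Nat.cast_sum _ _
  rw [← hb] at hDg
  have h0 : A.card = i + C.card + 2 * ∑ p, β p := by omega
  rcases hR with h | h | h
  · exact Cb_core hTs hDs hK1 A C β η hη (by omega) h0 hinj hinv
  · have hn := Cb_pr m
    have hAc := Finset.card_compl A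
    have hCc := Finset.card_compl C
    have hAl := Finset.card_le_univ A
    have hCl := Finset.card_le_univ C
    refine Cb_core hTs hDs hK1 Cᶜ Aᶜ β η ?_ (by omega) (by omega) hinj hinv
    rw [hη]
    congr 1
    have hA1 := Finset.sum_add_sum_compl A (fun p : Pr m => rt p)
    have hC1 := Finset.sum_add_sum_compl C (fun p : Pr m => rt p)
    have h5 : ∑ p ∈ A, rt p + ∑ p ∈ Aᶜ, rt p = ∑ p ∈ C, rt p + ∑ p ∈ Cᶜ, rt p :=
      hA1.trans hC1.symm
    unfold sc
    have h6 : ∑ p ∈ Aᶜ, rt p = ∑ p ∈ C, rt p + ∑ p ∈ Cᶜ, rt p - ∑ p ∈ A, rt p := by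
      rw [← h5]
      abel
    rw [h6]
    abel
  · classical
    refine hK3 m A (fun p => β p + if p ∈ C then 1 else 0) η ?_ hinj (by rw [hinv]; exact h)
    rw [hη, add_assoc]
    congr 1
    have h7 : ∑ p ∈ C, rt p = ∑ p : Pr m, if p ∈ C then rt p else 0 := by
      rw [Finset.sum_ite_mem, Finset.univ_inter]
    rw [h7, ← Finset.sum_add_distrib]
    refine Finset.sum_congr rfl fun p _ => ?_
    by_cases hp : p ∈ C
    · rw [if_pos hp, if_pos hp, Nat.cast_add, add_smul, Nat.cast_one, one_smul, add_comm]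
    · rw [if_neg hp, if_neg hp, add_zero, zero_add]

end PV
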