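import Pool.Agent.Lib.MP_3b3418_ag.PV.SpecM
import Mathlib.Combinatorics.SimpleGraph.Acyclic

/-!
# Cut: free cuts of a sequence with few descending pairs

The inversion graph of a sequence all of whose cuts are crossed is connected, so it has at least
`m - 1` edges.
-/

set_option autoImplicit false

namespace PV

/-- The descending pairs. -/
private def Cut_desc {m : ℕ} (η : Fin m → ℤ) : Finset (Fin m × Fin m) :=
  Finset.univ.filter fun p : Fin m × Fin m => p.1 < p.2 ∧ η p.2 < η p.1

/-- The inversion graph. -/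
private def Cut_G {m : ℕ} (η : Fin m → ℤ) : SimpleGraph (Fin m) where
  Adj p q := (p < q ∧ η q < η p) ∨ (q < p ∧ η p < η q)
  symm := ⟨fun _ _ h => Or.elim h Or.inr Or.inl⟩
  loopless := ⟨fun p h => by
    rcases h with h | h <;> exact lt_irrefl _ h.1⟩

private theorem Cut_total {m : ℕ} (hIv : S_Iv) (η : Fin m → ℤ) (hη : Function.Injective η) :
    invn η + (Cut_desc η).card = m * (m - 1) / 2 := by
  classical
  have h1 := (hIv m (fun k : Fin m => (k.val : ℤ))).2.2.2.2.1 (by
    intro i j hij
    simp only [hij]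
    push_cast
    linarith)
  rw [← h1]
  unfold invn Cut_desc
  rw [← Finset.card_union_of_disjoint]
  · congr 1
    ext p
    simp only [Finset.mem_union, Finset.mem_filter, Finset.mem_univ, true_and, Nat.cast_lt,
      Fin.val_fin_lt]
    constructor
    · rintro (h | h)
      · exact ⟨h.1, h.1⟩
      · exact ⟨h.1, h.1⟩
    · rintro ⟨h, -⟩
      rcases lt_trichotomy (η p.1) (η p.2) with h2 | h2 | h2
      · exact Or.inl ⟨h, h2⟩
      · exact absurd (hη h2) (ne_of_lt h)
      · exact Or.inr ⟨h, h2⟩
  · rw [Finset.disjoint_left]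
    intro p hp hq
    rw [Finset.mem_filter] at hp hq
    exact lt_asymm hp.2.2 hq.2.2

private theorem Cut_edges {m : ℕ} (η : Fin m → ℤ) (h : (Cut_G η).Connected) :
    m ≤ (Cut_desc η).card + 1 := by
  classical
  have h1 := h.card_vert_le_card_edgeSet_add_one
  rw [Nat.card_eq_fintype_card, Fintype.card_fin] at h1
  refine h1.trans (Nat.add_le_add_right ?_ 1)
  have h2 : (Cut_G η).edgeSet ⊆ ((Cut_desc η).image fun p => s(p.1, p.2) : Finset (Sym2 (Fin m))) := by
    intro e
    induction e using Sym2.ind with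
    | _ p q =>
      intro he
      rw [SimpleGraph.mem_edgeSet] at he
      rw [Finset.mem_coe, Finset.mem_image]
      rcases he with he | he
      · exact ⟨(p, q), by rw [Cut_desc, Finset.mem_filter]; exact ⟨Finset.mem_univ _, he⟩, rfl⟩
      · exact ⟨(q, p), by rw [Cut_desc, Finset.mem_filter]; exact ⟨Finset.mem_univ _, he⟩,
          Sym2.eq_swap⟩
  have h3 := Nat.card_mono (Finset.finite_toSet _) h2
  refine h3.trans ?_
  rw [Nat.card_coe_set_eq, Set.ncard_coe_finset]
  exact Finset.card_image_le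

private theorem Cut_conn {m : ℕ} (η : Fin m → ℤ) (hm : 0 < m) (hη : Function.Injective η)
    (hc : ∀ r : ℕ, 0 < r → r < m → ∃ p q : Fin m, p.val < r ∧ r ≤ q.val ∧ η q < η p) :
    (Cut_G η).Connected := by
  have key : ∀ r : ℕ, ∀ hr : r < m, (Cut_G η).Reachable ⟨0, hm⟩ ⟨r, hr⟩ := by
    intro r
    induction r using Nat.strong_induction_on with
    | _ r ih =>
      intro hr
      rcases Nat.eq_zero_or_pos r with h0 | h0
      · subst h0
        exact SimpleGraph.Reachable.refl _
      · obtain ⟨p, q, hp, hq, hpq⟩ := hc r h0 hr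
        have h1 := ih p.val hp p.isLt
        rcases lt_trichotomy (η ⟨r, hr⟩) (η p) with h2 | h2 | h2
        · exact h1.trans (SimpleGraph.Adj.reachable (Or.inl ⟨Fin.lt_def.2 hp, h2⟩))
        · exact absurd (congrArg Fin.val (hη h2)) (ne_of_gt hp)
        · have h3 : r ≠ q.val := by
            intro h
            have : q = ⟨r, hr⟩ := Fin.ext h.symm
            rw [this] at hpq
            exact lt_asymm hpq h2
          have h4 : (Cut_G η).Adj p q := Or.inl ⟨Fin.lt_def.2 (lt_of_lt_of_le hp hq), hpq⟩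
          have h5 : (Cut_G η).Adj q ⟨r, hr⟩ :=
            Or.inr ⟨Fin.lt_def.2 (lt_of_le_of_ne hq h3), hpq.trans h2⟩
          exact (h1.trans h4.reachable).trans h5.reachable
  haveI : Nonempty (Fin m) := ⟨⟨0, hm⟩⟩
  refine SimpleGraph.Connected.mk ?_
  intro v w
  exact (key v.val v.isLt).symm.trans (key w.val w.isLt)

/-- **Cut.** -/
theorem tCut (hIv : S_Iv) : S_Cut := by
  intro m η hm hη hi
  by_contra hcon
  have hc : ∀ r : ℕ, 0 < r → r < m → ∃ p q : Fin m, p.val < r ∧ r ≤ q.val ∧ η q < η p := by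
    intro r h0 hr
    by_contra h
    apply hcon
    refine ⟨r, h0, hr, fun p q hp hq => ?_⟩
    rcases lt_trichotomy (η p) (η q) with h2 | h2 | h2
    · exact h2
    · exact absurd (congrArg Fin.val (hη h2)) (ne_of_lt (lt_of_lt_of_le hp hq))
    · exact absurd ⟨p, q, hp, hq, h2⟩ h
  have h1 := Cut_edges η (Cut_conn η (by omega) hη hc)
  have h2 := Cut_total hIv η hη
  omega

end PV
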