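import Pool.Agent.Lib.MP_3b3418_ag.PV.SpecM

/-!
# Distinct integers
-/

set_option autoImplicit false

namespace PV

private theorem Ds_one (m : ℕ) (η : Fin m → ℤ) (hi : Function.Injective η)
    (hb : ∀ v, 0 ≤ η v ∧ η v ≤ (m : ℤ) - 1) : IsPm η := by
  have hlt : ∀ v, ((m : ℤ) - 1 - η v).toNat < m := by
    intro v
    have h := hb v
    omega
  let f : Fin m → Fin m := fun v => ⟨((m : ℤ) - 1 - η v).toNat, hlt v⟩
  have hf : Function.Injective f := by
    intro v w h
    apply hi
    have h1 : ((m : ℤ) - 1 - η v).toNat = ((m : ℤ) - 1 - η w).toNat := congrArg Fin.val h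
    have h2 := hb v
    have h3 := hb w
    omega
  refine ⟨Equiv.ofBijective f (Finite.injective_iff_bijective.1 hf), fun k => ?_⟩
  have h2 := hb k
  show η k = (m : ℤ) - 1 - ((((m : ℤ) - 1 - η k).toNat : ℕ) : ℤ)
  omega

private theorem Ds_two (X : Finset ℤ) : ∀ M : ℤ, (∀ x ∈ X, x ≤ M) →
    2 * ∑ x ∈ X, x ≤ 2 * X.card * M - (X.card : ℤ) * (X.card - 1) := by
  induction X using Finset.induction_on_max with
  | empty => intro M _; simp
  | insert a s hs ih =>
    intro M hM
    have ha : a ∉ s := fun h => lt_irrefl _ (hs a h)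
    have haM := hM a (Finset.mem_insert_self a s)
    have h1 := ih (M - 1) fun x hx => by
      have := hs x hx
      omega
    rw [Finset.sum_insert ha, Finset.card_insert_of_notMem ha]
    push_cast
    nlinarith [h1, haM]

private theorem Ds_three (X : Finset ℤ) : ∀ M : ℤ, (∀ x ∈ X, M ≤ x) →
    2 * (X.card : ℤ) * M + (X.card : ℤ) * (X.card - 1) ≤ 2 * ∑ x ∈ X, x := by
  induction X using Finset.induction_on_min with
  | empty => intro M _; simp
  | insert a s hs ih =>
    intro M hM
    have ha : a ∉ s := fun h => lt_irrefl _ (hs a h)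
    have haM := hM a (Finset.mem_insert_self a s)
    have h1 := ih (M + 1) fun x hx => by
      have := hs x hx
      omega
    rw [Finset.sum_insert ha, Finset.card_insert_of_notMem ha]
    push_cast
    nlinarith [h1, haM]

theorem tDs : S_Ds := ⟨Ds_one, Ds_two, Ds_three⟩

end PV
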