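import Pool.Agent.Lib.MP_3b3418_ag.PV.SpecM

/-!
# Final assembly
-/

set_option autoImplicit false

namespace PV

open MP3s

/-- **Fin.** The theorem. -/
theorem tFin : S_MR → S_MS → S_MW → S_Fil → S_OneD → S_Cb → S_BC → S_Fin := by
  intro hMR hMS hMW hFil hOneD hCb hBC m i j hreg
  obtain ⟨⟨ρM, hM⟩, hR⟩ := hMR m j (-((i : ℤ) + j))
  have hRat : Rat ρM := hR ρM hM
  have : Module.Finite ℂ (Mjk m j (-((i : ℤ) + j))) := (hMS m j (-((i : ℤ) + j))).2.1
  have hWS := hMW m j (-((i : ℤ) + j)) ρM hM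
  have hT : Trv ρM i := by
    refine hFil m _ i (fun μ hμ => ?_) (Mjk m j (-((i : ℤ) + j))) ρM hRat hWS
    obtain ⟨β, u, hu, hD, rfl⟩ := hμ
    exact hOneD m (wt β u) i fun hinj hinv => hCb m i j hreg β u hu hD hinj hinv
  exact hBC m i j ρM hM hRat hT

end PV
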