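import Pool.Agent.Lib.MP_3b3418_ag.PV.SpecM

set_option autoImplicit false

namespace PV

open MP3s

private theorem K1_sum {m : ℕ} (η : Fin m → ℤ) (hη : Function.Injective η) (a : Fin m) :
    ∑ x ∈ (Finset.univ.erase a).image η, x = (∑ v, η v) - η a ∧
      ((Finset.univ.erase a).image η).card = m - 1 := by
  refine ⟨?_, ?_⟩
  · rw [Finset.sum_image fun x _ y _ h => hη h]
    rw [← Finset.add_sum_erase Finset.univ η (Finset.mem_univ a)]
    ring
  · rw [Finset.card_image_of_injective _ hη, Finset.card_erase_of_mem (Finset.mem_univ a),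
      Finset.card_univ, Fintype.card_fin]

theorem tK1 : S_Ts → S_Ds → S_K1 := by
  intro hTs hDs m A p η he hη hi
  obtain ⟨h0, h2, h3, h4, -, h6⟩ := hTs m A
  obtain ⟨d1, d2, d3⟩ := hDs
  by_contra hP
  obtain ⟨⟨a, b⟩, hab⟩ := p
  have hab' : a < b := hab
  have hne : a ≠ b := hab'.ne
  have ev : ∀ v, η v = sc A v + ((if v = a then 1 else 0) - if v = b then 1 else 0) := fun v => by
    rw [he]
    rfl
  have ea : η a = sc A a + 1 := by
    rw [ev a, if_pos rfl, if_neg hne]
    ring
  have eb : η b = sc A b - 1 := by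
    rw [ev b, if_neg hne.symm, if_pos rfl]
    ring
  have eo : ∀ v, v ≠ a → v ≠ b → η v = sc A v := fun v h h' => by
    rw [ev v, if_neg h, if_neg h']
    ring
  have hs : 2 * ∑ v, η v = (m : ℤ) * (m - 1) := by
    rw [← h4]
    congr 1
    simp only [ev, Finset.sum_add_distrib, Finset.sum_sub_distrib, Finset.sum_ite_eq',
      Finset.mem_univ, if_true]
    ring
  have hm : 2 ≤ m := by
    have := a.2
    have := b.2
    have := Fin.lt_def.1 hab'
    omega
  have hmm : ((m - 1 : ℕ) : ℤ) = (m : ℤ) - 1 := by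
    rw [Nat.cast_sub (by omega)]
    rfl
  -- first implication
  have i1 : sc A a = (m : ℤ) - 1 → sc A b = 0 := by
    intro ha
    by_contra hb
    obtain ⟨q1, q2⟩ := K1_sum η hη a
    have hX : ∀ x ∈ (Finset.univ.erase a).image η, 0 ≤ x := by
      intro x hx
      obtain ⟨w, hw, rfl⟩ := Finset.mem_image.1 hx
      have hwa : w ≠ a := (Finset.mem_erase.1 hw).1
      by_cases hwb : w = b
      · rw [hwb, eb]
        have := (h0 b).1
        omega
      · rw [eo w hwa hwb]
        exact (h0 w).1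
    have q := d3 _ 0 hX
    rw [q1, q2, hmm, ea, ha] at q
    nlinarith
  have i2 : sc A b = 0 → sc A a = (m : ℤ) - 1 := by
    intro hb
    by_contra ha
    obtain ⟨q1, q2⟩ := K1_sum η hη b
    have hX : ∀ x ∈ (Finset.univ.erase b).image η, x ≤ (m : ℤ) - 1 := by
      intro x hx
      obtain ⟨w, hw, rfl⟩ := Finset.mem_image.1 hx
      have hwb : w ≠ b := (Finset.mem_erase.1 hw).1
      by_cases hwa : w = a
      · rw [hwa, ea]
        have := (h0 a).2
        omega
      · rw [eo w hwa hwb]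
        exact (h0 w).2
    have q := d2 _ ((m : ℤ) - 1) hX
    rw [q1, q2, hmm, eb, hb] at q
    nlinarith
  have hab2 : sc A a = (m : ℤ) - 1 ∧ sc A b = 0 := by
    by_contra hcon
    refine hP (d1 m η hη fun v => ?_)
    have g1 : sc A a ≠ (m : ℤ) - 1 := fun h => hcon ⟨h, i1 h⟩
    have g2 : sc A b ≠ 0 := fun h => hcon ⟨i2 h, h⟩
    by_cases hva : v = a
    · rw [hva, ea]
      have := h0 a
      omega
    · by_cases hvb : v = b
      · rw [hvb, eb]
        have := h0 b
        omega
      · rw [eo v hva hvb]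
        exact h0 v
  obtain ⟨ha, hb⟩ := hab2
  have u1 : ∀ v, v ≠ a → sc A v ≤ (m : ℤ) - 2 := fun v hv => h2 a v (Ne.symm hv) ha
  have u2 : ∀ v, v ≠ b → 1 ≤ sc A v := fun v hv => h3 b v (Ne.symm hv) hb
  have hsi : Function.Injective (sc A) := by
    intro v w hvw
    by_contra hne2
    have key : ∀ v w, sc A v = sc A w → v ≠ w → v ≠ a ∧ v ≠ b := fun v w h h' => by
      refine ⟨fun hv => ?_, fun hv => ?_⟩
      · have := u1 w fun hw => h' (hv.trans hw.symm)
        rw [hv] at h
        omega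
      · have := u2 w fun hw => h' (hv.trans hw.symm)
        rw [hv] at h
        omega
    obtain ⟨k1, k2⟩ := key v w hvw hne2
    obtain ⟨k3, k4⟩ := key w v hvw.symm (Ne.symm hne2)
    exact hne2 (hη (by rw [eo v k1 k2, eo w k3 k4, hvw]))
  have hinv : invn η = invn (sc A) := by
    unfold invn
    refine congrArg Finset.card (Finset.filter_congr fun q _ => ?_)
    refine and_congr_right fun hq => ?_
    have hqne : q.1 ≠ q.2 := ne_of_lt hq
    have hz : ∀ v, (v = a ∧ η v = (m : ℤ) ∧ sc A v = (m : ℤ) - 1) ∨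
        (v = b ∧ η v = -1 ∧ sc A v = 0) ∨
        (v ≠ a ∧ v ≠ b ∧ η v = sc A v ∧ 1 ≤ sc A v ∧ sc A v ≤ (m : ℤ) - 2) := fun v => by
      by_cases hva : v = a
      · left
        refine ⟨hva, ?_, ?_⟩
        · rw [hva, ea, ha]
          ring
        · rw [hva, ha]
      · by_cases hvb : v = b
        · right
          left
          refine ⟨hvb, ?_, ?_⟩
          · rw [hvb, eb, hb]
            ring
          · rw [hvb, hb]
        · right
          right
          exact ⟨hva, hvb, eo v hva hvb, u2 v hvb, u1 v hva⟩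
    have hm' : (2 : ℤ) ≤ m := by exact_mod_cast hm
    rcases hz q.1 with ⟨e1, e2, e3⟩ | ⟨e1, e2, e3⟩ | ⟨e1, e1', e2, e3, e4⟩ <;>
    rcases hz q.2 with ⟨f1, f2, f3⟩ | ⟨f1, f2, f3⟩ | ⟨f1, f1', f2, f3, f4⟩
    · exact absurd (e1.trans f1.symm) hqne
    · omega
    · omega
    · omega
    · exact absurd (e1.trans f1.symm) hqne
    · omega
    · omega
    · omega
    · omega
  rw [hinv, h6 hsi] at hi
  exact lt_irrefl _ hi

end PV
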