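import Pool.Agent.Lib.MP_3b3418_ag.PV.SpecM

/-!
# Task K3: the combinatorial lemma for the third strip
-/

set_option autoImplicit false

namespace PV

open MP3s

private theorem K3_up (hD : S_Ds) {m : ℕ} {η : Fin m → ℤ} (hη : Function.Injective η)
    (s : Finset (Fin m)) (M : ℤ) (h : ∀ v ∈ s, η v ≤ M) :
    2 * ∑ v ∈ s, η v ≤ 2 * (s.card : ℤ) * M - (s.card : ℤ) * (s.card - 1) := by
  have h1 := hD.2.1 (s.image η) M (by
    intro x hx
    obtain ⟨v, hv, rfl⟩ := Finset.mem_image.1 hx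
    exact h v hv)
  rwa [Finset.card_image_of_injective s hη, Finset.sum_image (fun a _ b _ hab => hη hab)] at h1

private theorem K3_lo (hD : S_Ds) {m : ℕ} {η : Fin m → ℤ} (hη : Function.Injective η)
    (s : Finset (Fin m)) (M : ℤ) (h : ∀ v ∈ s, M ≤ η v) :
    2 * (s.card : ℤ) * M + (s.card : ℤ) * (s.card - 1) ≤ 2 * ∑ v ∈ s, η v := by
  have h1 := hD.2.2 (s.image η) M (by
    intro x hx
    obtain ⟨v, hv, rfl⟩ := Finset.mem_image.1 hx
    exact h v hv)
  rwa [Finset.card_image_of_injective s hη, Finset.sum_image (fun a _ b _ hab => hη hab)] at h1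

private theorem K3_rt {m : ℕ} (s : Finset (Fin m)) (p : Pr m) :
    ∑ v ∈ s, rt p v = (if p.1.1 ∈ s then 1 else 0) - (if p.1.2 ∈ s then 1 else 0) := by
  unfold rt root
  rw [Finset.sum_sub_distrib, Finset.sum_ite_eq', Finset.sum_ite_eq']

private theorem K3_sum {m : ℕ} (A : Finset (Pr m)) (γ : Pr m → ℕ) (s : Finset (Fin m)) :
    ∑ v ∈ s, (sc A + ∑ p, (γ p : ℤ) • rt p) v =
      ∑ v ∈ s, sc A v + ∑ p, (γ p : ℤ) * ∑ v ∈ s, rt p v := by
  have h1 : ∀ v, (sc A + ∑ p, (γ p : ℤ) • rt p) v = sc A v + ∑ p, (γ p : ℤ) * rt p v := by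
    intro v
    rw [Pi.add_apply, Finset.sum_apply]
    rfl
  rw [Finset.sum_congr rfl fun v _ => h1 v, Finset.sum_add_distrib, Finset.sum_comm]
  simp_rw [Finset.mul_sum]

/-- Task K3. -/
theorem tK3 : S_Ts → S_Ds → S_Cut → S_K3 := by
  intro hT hD hC m A γ η he hη hi
  obtain ⟨t1, -, -, t4, t5, -⟩ := hT m A
  rcases Nat.lt_or_ge m 2 with hm | hm
  · refine hD.1 m η hη fun v => ?_
    have h1 : ∀ p : Pr m, False := fun p => by
      have h2 := p.2
      have h3 := p.1.1.2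
      have h4 := p.1.2.2
      have h5 : p.1.1.val < p.1.2.val := h2
      omega
    have h6 : η v = sc A v := by
      rw [he, Pi.add_apply, Finset.sum_apply, Finset.sum_eq_zero fun p _ => (h1 p).elim, add_zero]
    rw [h6]
    exact t1 v
  obtain ⟨r, hr0, hrm, hcut⟩ := hC m η hm hη hi
  -- the two blocks
  set S : Finset (Fin m) := Finset.univ.filter fun v => v.val < r with hS
  have hcS : S.card = r := by
    rw [hS, Fin.card_filter_val_lt]
    omega
  have hcSc : (Sᶜ).card = m - r := by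
    rw [Finset.card_compl, Fintype.card_fin, hcS]
  have hmS : ∀ v, v ∈ S ↔ v.val < r := fun v => by simp [hS]
  have hmSc : ∀ v, v ∈ Sᶜ ↔ r ≤ v.val := fun v => by simp [hS]
  -- sums
  have hX : (r : ℤ) * (r - 1) ≤ 2 * ∑ v ∈ S, η v := by
    have h1 := t5 r hrm.le
    have h2 : ∑ v ∈ S, η v = ∑ v ∈ S, sc A v + ∑ p, (γ p : ℤ) * ∑ v ∈ S, rt p v := by
      rw [he]
      exact K3_sum A γ S
    have h3 : 0 ≤ ∑ p : Pr m, (γ p : ℤ) * ∑ v ∈ S, rt p v := by
      refine Finset.sum_nonneg fun p _ => mul_nonneg (Int.natCast_nonneg _) ?_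
      rw [K3_rt]
      have h4 : p.1.1.val < p.1.2.val := p.2
      simp only [hmS]
      split_ifs with h5 h6
      · norm_num
      · norm_num
      · omega
      · norm_num
    rw [h2]
    linarith
  have hXY : 2 * (∑ v ∈ S, η v + ∑ v ∈ Sᶜ, η v) = (m : ℤ) * (m - 1) := by
    rw [Finset.sum_add_sum_compl, he, K3_sum A γ Finset.univ]
    have h3 : ∑ p : Pr m, (γ p : ℤ) * ∑ v, rt p v = 0 := by
      refine Finset.sum_eq_zero fun p _ => ?_
      rw [K3_rt]
      simp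
    rw [h3, add_zero]
    exact t4
  -- the maximum of the first block
  have hne : S.Nonempty := by
    rw [← Finset.card_pos, hcS]
    exact hr0
  obtain ⟨v₀, hv₀, hmax⟩ := Finset.exists_max_image S η hne
  have hY0 : ∀ q ∈ Sᶜ, η v₀ + 1 ≤ η q := fun q hq => hcut v₀ q ((hmS v₀).1 hv₀) ((hmSc q).1 hq)
  have hrc : ((m - r : ℕ) : ℤ) = (m : ℤ) - r := by
    push_cast [Nat.cast_sub hrm.le]
    ring
  have hrp : (0 : ℤ) < r := by exact_mod_cast hr0
  have hrm' : (0 : ℤ) < (m : ℤ) - r := by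
    have : (r : ℤ) < m := by exact_mod_cast hrm
    linarith
  have u1 := K3_up hD hη S (η v₀) hmax
  have l1 := K3_lo hD hη Sᶜ (η v₀ + 1) hY0
  rw [hcS] at u1
  rw [hcSc, hrc] at l1
  have hM1 : (r : ℤ) - 1 ≤ η v₀ := by
    by_contra hcon
    have h1 : η v₀ + 1 ≤ (r : ℤ) - 1 := by omega
    nlinarith
  have hM2 : η v₀ ≤ (r : ℤ) - 1 := by
    by_contra hcon
    have h1 : (r : ℤ) ≤ η v₀ := by omega
    nlinarith
  have hM : η v₀ = (r : ℤ) - 1 := le_antisymm hM2 hM1
  refine hD.1 m η hη fun v => ?_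
  by_cases hv : v ∈ S
  · have h1 : η v ≤ (r : ℤ) - 1 := hM ▸ hmax v hv
    refine ⟨?_, by linarith⟩
    have u2 := K3_up hD hη (S.erase v) ((r : ℤ) - 1) fun w hw => hM ▸ hmax w (Finset.mem_of_mem_erase hw)
    rw [Finset.card_erase_of_mem hv, hcS] at u2
    have h2 := Finset.add_sum_erase S η hv
    have h3 : ((r - 1 : ℕ) : ℤ) = (r : ℤ) - 1 := by
      push_cast [Nat.cast_sub hr0]
      ring
    rw [h3] at u2
    nlinarith
  · have hv' : v ∈ Sᶜ := Finset.mem_compl.2 hv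
    have h1 : (r : ℤ) ≤ η v := by
      have := hY0 v hv'
      linarith
    refine ⟨by linarith, ?_⟩
    have l2 := K3_lo hD hη (Sᶜ.erase v) (r : ℤ) fun w hw => by
      have := hY0 w (Finset.mem_of_mem_erase hw)
      linarith
    rw [Finset.card_erase_of_mem hv', hcSc] at l2
    have h2 := Finset.add_sum_erase Sᶜ η hv'
    have h3 : ((m - r - 1 : ℕ) : ℤ) = (m : ℤ) - r - 1 := by
      omega
    rw [h3] at l2
    nlinarith

end PV
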