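import Pool.Agent.Lib.MP_3b3418_ag.PV.SpecM

/-! The representation of the Borel subgroup on the module of normal forms. -/

set_option autoImplicit false
set_option linter.all false

namespace PV

open MP3s

/-- The function `(b q)(ν)`. -/
private noncomputable def MR_fn {m j : ℕ} (b : Bo m) (q : Nn m → Wedge j (Tot m)) :
    Nn m → Wedge j (Tot m) :=
  fun ν => wL j (red ν) (wL j (Ad b) (q (cN b ν)))

private theorem MR_mem (hR : S_Rd) {m j : ℕ} {k : ℤ} (b : Bo m) (q : Nn m → Wedge j (Tot m))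
    (hq : q ∈ Mjk m j k) : MR_fn b q ∈ Mjk m j k := by
  obtain ⟨h1, h2, h3, h4, h5, h6, h7⟩ := hR m
  refine ⟨?_, ?_, ?_⟩
  · have hm0 : Mor (fun ν : Nn m => ((b, ν) : Bo m × Nn m)) :=
      Mor.pair (f := fun _ : Nn m => b) (g := fun ν : Nn m => ν) (Mor.const b) Mor.id
    have hm : Mor (fun ν : Nn m => cN b ν) :=
      Mor.comp (f := fun p : Bo m × Nn m => cN p.1 p.2) h7 (g := fun ν : Nn m => (b, ν)) hm0
    have hq1 : Reg fun ν : Nn m => wL j (Ad b) (q (cN b ν)) := (hq.1.comp hm).map (wL j (Ad b))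
    exact Reg.act (θ := fun ν : Nn m => wL j (red ν)) (fun v => (h4 j v).1) Mor.id hq1
  · intro ν
    unfold MR_fn
    rw [wL_comp j (red ν) (red ν)]
    have : red ν ∘ₗ red ν = red ν := LinearMap.ext fun p => h1 ν ν p
    rw [this]
  · intro c hc ν
    unfold MR_fn
    have e1 : cN b (scN (c ^ 2) ν) = scN (c ^ 2) (cN b ν) := (h6 b b ν (c ^ 2)).2.2
    rw [e1, hq.2.2 c hc, map_smul, map_smul]
    rw [wL_comp j (dilTot (c ^ 2)) (Ad b), wL_comp j _ (red (scN (c ^ 2) ν)), wL_comp j (Ad b),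
      wL_comp j _ (dilTot (c ^ 2))]
    have e2 : red (scN (c ^ 2) ν) ∘ₗ (Ad b ∘ₗ dilTot (c ^ 2)) =
        dilTot (c ^ 2) ∘ₗ (red ν ∘ₗ Ad b) := by
      refine LinearMap.ext fun p => ?_
      change red (scN (c ^ 2) ν) (Ad b (dilTot (c ^ 2) p)) = dilTot (c ^ 2) (red ν (Ad b p))
      rw [← (h5 b b p (c ^ 2)).2.2.1, h2]
    rw [e2]

private theorem MR_one (hR : S_Rd) {m j : ℕ} {k : ℤ} (q : Nn m → Wedge j (Tot m))
    (hq : q ∈ Mjk m j k) : MR_fn 1 q = q := by
  obtain ⟨h1, h2, h3, h4, h5, h6, h7⟩ := hR m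
  funext ν
  unfold MR_fn
  rw [(h6 1 1 ν 1).2.1]
  have : (Ad (1 : Bo m)) = LinearMap.id := LinearMap.ext fun p => (h5 1 1 p 1).2.1
  rw [this, wL_id]
  exact hq.2.1 ν

private theorem MR_mul (hR : S_Rd) {m j : ℕ} (b b' : Bo m) (q : Nn m → Wedge j (Tot m)) :
    MR_fn (b * b') q = MR_fn b (MR_fn b' q) := by
  obtain ⟨h1, h2, h3, h4, h5, h6, h7⟩ := hR m
  funext ν
  unfold MR_fn
  rw [(h6 b b' ν 1).1]
  rw [wL_comp j (Ad (b * b')) (red ν), wL_comp j (Ad b') (red (cN b ν)), wL_comp j _ (Ad b),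
    wL_comp j _ (red ν)]
  have e : red ν ∘ₗ Ad (b * b') = red ν ∘ₗ (Ad b ∘ₗ (red (cN b ν) ∘ₗ Ad b')) := by
    refine LinearMap.ext fun p => ?_
    change red ν (Ad (b * b') p) = red ν (Ad b (red (cN b ν) (Ad b' p)))
    rw [h3, (h5 b b' p 1).1]
  rw [e]

private theorem MR_reg (hR : S_Rd) {m j : ℕ} (q : Nn m → Wedge j (Tot m)) (hq : Reg q) :
    Reg fun b : Bo m => MR_fn b q := by
  obtain ⟨h1, h2, h3, h4, h5, h6, h7⟩ := hR m
  have hq1 : Reg fun p : Bo m × Nn m => q (cN p.1 p.2) := hq.comp h7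
  have hq2 : Reg fun p : Bo m × Nn m => wL j (Ad p.1) (q (cN p.1 p.2)) :=
    Reg.act (θ := fun b : Bo m => wL j (Ad b)) (fun v => (h4 j v).2.1) Mor.fst hq1
  have hq3 : Reg fun p : Bo m × Nn m => wL j (red p.2) (wL j (Ad p.1) (q (cN p.1 p.2))) :=
    Reg.act (θ := fun ν : Nn m => wL j (red ν)) (fun v => (h4 j v).1) Mor.snd hq2
  exact hq3.curry

private noncomputable def MR_rep (hR : S_Rd) (m j : ℕ) (k : ℤ) :
    Representation ℂ (Bo m) (Mjk m j k) where
  toFun b :=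
    { toFun := fun q => ⟨MR_fn b q.1, MR_mem hR b q.1 q.2⟩
      map_add' := fun q q' => by
        refine Subtype.ext (funext fun ν => ?_)
        change wL j (red ν) (wL j (Ad b) (q.1 (cN b ν) + q'.1 (cN b ν))) =
          wL j (red ν) (wL j (Ad b) (q.1 (cN b ν))) + wL j (red ν) (wL j (Ad b) (q'.1 (cN b ν)))
        rw [map_add, map_add]
      map_smul' := fun c q => by
        refine Subtype.ext (funext fun ν => ?_)
        change wL j (red ν) (wL j (Ad b) (c • q.1 (cN b ν))) =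
          c • wL j (red ν) (wL j (Ad b) (q.1 (cN b ν)))
        rw [map_smul, map_smul] }
  map_one' := by
    refine LinearMap.ext fun q => Subtype.ext ?_
    exact MR_one hR q.1 q.2
  map_mul' b b' := by
    refine LinearMap.ext fun q => Subtype.ext ?_
    exact MR_mul hR b b' q.1

theorem tMR : S_Mor → S_Rd → S_MR := by
  intro _ hR m j k
  refine ⟨⟨MR_rep hR m j k, fun b q ν => rfl⟩, ?_⟩
  intro ρM hM q
  have h1 : ∀ b : Bo m, MR_fn b q.1 = (ρM b q).1 := fun b => funext fun ν => (hM b q ν).symm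
  have h2 := (MR_reg hR q.1 q.2.1).codRestrict (Mjk m j k)
    (fun b => by rw [h1 b]; exact (ρM b q).2)
  have h3 : (fun b : Bo m => (⟨MR_fn b q.1, by rw [h1 b]; exact (ρM b q).2⟩ : Mjk m j k)) =
      fun b => ρM b q := by
    funext b
    exact Subtype.ext (h1 b)
  rw [h3] at h2
  exact h2

end PV
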