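import Pool.Agent.Lib.MP_3b3418_ag.PV.SpecM

/-!
# The module of the normal forms is spanned by monomials
-/

set_option autoImplicit false

namespace PV

open MP3s

private theorem MS_wL {V W : Type} [AddCommGroup V] [Module ℂ V] [AddCommGroup W] [Module ℂ W]
    {j : ℕ} (f : V →ₗ[ℂ] W) (v : Fin j → V) : wL j f (wi v) = wi fun r => f (v r) :=
  exteriorPower.map_apply_ιMulti f v

private theorem MS_smul {V : Type} [AddCommGroup V] [Module ℂ V] {j : ℕ} (c : Fin j → ℂ)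
    (v : Fin j → V) : wi (fun r => c r • v r) = (∏ r, c r) • wi v :=
  (exteriorPower.ιMulti ℂ j (M := V)).toMultilinearMap.map_smul_univ c v

private theorem MS_sum {V : Type} [AddCommGroup V] [Module ℂ V] {j : ℕ} {ι : Type} [Fintype ι]
    (g : Fin j → ι → V) : wi (fun r => ∑ i, g r i) = ∑ u : Fin j → ι, wi fun r => g r (u r) :=
  (exteriorPower.ιMulti ℂ j (M := V)).toMultilinearMap.map_sum g

private theorem MS_inj {V : Type} [AddCommGroup V] [Module ℂ V] {j : ℕ} (v : Fin j → V)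
    (hv : ¬ Function.Injective v) : wi v = 0 :=
  (exteriorPower.ιMulti ℂ j (M := V)).map_eq_zero_of_not_injective v hv

/-! ## the basis vectors -/

private def MS_s {m : ℕ} : Tot m →ₗ[ℂ] Gl m where
  toFun p := matS p.1
  map_add' _ _ := rfl
  map_smul' _ _ := rfl

private def MS_n {m : ℕ} : Tot m →ₗ[ℂ] Gl m where
  toFun p := matN p.2
  map_add' _ _ := rfl
  map_smul' _ _ := rfl

private theorem MS_ext {m : ℕ} {p q : Tot m} (h1 : MS_s p = MS_s q) (h2 : MS_n p = MS_n q) :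
    p = q := Prod.ext (Subtype.ext h1) (Subtype.ext h2)

private theorem MS_sbt {m : ℕ} (q : Pr m) : MS_s (bv true q) = 0 := rfl

private theorem MS_sbf {m : ℕ} (q : Pr m) : MS_s (bv false q) = Matrix.single q.1.2 q.1.1 1 := rfl

private theorem MS_nbt {m : ℕ} (q : Pr m) : MS_n (bv true q) = Matrix.single q.1.1 q.1.2 1 := rfl

private theorem MS_nbf {m : ℕ} (q : Pr m) : MS_n (bv false q) = 0 := rfl

private theorem MS_low {m : ℕ} (q : Pr m) :
    low (Matrix.single q.1.2 q.1.1 (1 : ℂ)) = Matrix.single q.1.2 q.1.1 1 := by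
  funext a b
  change (if b < a then Matrix.single q.1.2 q.1.1 (1 : ℂ) a b else 0) = _
  by_cases h : b < a
  · rw [if_pos h]
  · rw [if_neg h]
    refine (Matrix.single_apply_of_ne _ _ _ _ _ fun h1 => h ?_).symm
    rw [← h1.1, ← h1.2]
    exact q.2

private theorem MS_upp {m : ℕ} (q : Pr m) : upp (Matrix.single q.1.2 q.1.1 (1 : ℂ)) = 0 := by
  funext a b
  change (if b < a then 0 else Matrix.single q.1.2 q.1.1 (1 : ℂ) a b) = 0
  by_cases h : b < a
  · rw [if_pos h]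
  · rw [if_neg h]
    refine Matrix.single_apply_of_ne _ _ _ _ _ fun h1 => h ?_
    rw [← h1.1, ← h1.2]
    exact q.2

private theorem MS_upp0 {m : ℕ} : upp (0 : Gl m) = 0 := by
  funext a b
  change (if b < a then (0 : ℂ) else 0) = 0
  rw [ite_self]

private theorem MS_low0 {m : ℕ} : low (0 : Gl m) = 0 := by
  funext a b
  change (if b < a then (0 : ℂ) else 0) = 0
  rw [ite_self]

private theorem MS_rs {m : ℕ} (ν : Nn m) (p : Tot m) : MS_s (red ν p) = low (MS_s p) := rfl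

private theorem MS_rn {m : ℕ} (ν : Nn m) (p : Tot m) : MS_n (red ν p) =
    MS_n p - (matN ν * upp (MS_s p) - upp (MS_s p) * matN ν) := rfl

private theorem MS_red_bv {m : ℕ} (ν : Nn m) (s : Bool) (q : Pr m) : red ν (bv s q) = bv s q := by
  cases s with
  | true =>
    refine MS_ext ?_ ?_
    · rw [MS_rs, MS_sbt, MS_low0]
    · rw [MS_rn, MS_sbt, MS_upp0, mul_zero, zero_mul, sub_zero, sub_zero]
  | false =>
    refine MS_ext ?_ ?_
    · rw [MS_rs, MS_sbf, MS_low]
    · rw [MS_rn, MS_sbf, MS_upp, mul_zero, zero_mul, sub_zero, sub_zero]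

private theorem MS_dil_bv {m : ℕ} (c : ℂ) (s : Bool) (q : Pr m) :
    dilTot c (bv s q) = (if s = true then c else 1) • bv s q := by
  cases s with
  | true =>
    rw [if_pos rfl]
    refine MS_ext ?_ ?_
    · rw [map_smul, MS_sbt, smul_zero]
      rfl
    · rw [map_smul]
      rfl
  | false =>
    rw [if_neg (by simp), one_smul]
    refine MS_ext rfl ?_
    rw [MS_nbf]
    change c • (0 : Gl m) = 0
    rw [smul_zero]

/-- coefficients of the normal form -/
private def MS_cf {m : ℕ} (p : Tot m) (i : Bool × Pr m) : ℂ :=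
  if i.1 = true then MS_n p i.2.1.1 i.2.1.2 else MS_s p i.2.1.2 i.2.1.1

private theorem MS_red0 {m : ℕ} (p : Tot m) :
    red (0 : Nn m) p = ∑ i : Bool × Pr m, MS_cf p i • bv i.1 i.2 := by
  have h0 : matN (0 : Nn m) = 0 := rfl
  rw [Fintype.sum_prod_type, Fintype.sum_bool]
  refine MS_ext ?_ ?_
  · rw [MS_rs, map_add, map_sum, map_sum]
    have h1 : ∑ q : Pr m, MS_s (MS_cf p (true, q) • bv true q) = 0 := by
      refine Finset.sum_eq_zero fun q _ => ?_
      rw [map_smul, MS_sbt, smul_zero]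
    rw [h1, zero_add]
    funext a b
    rw [Matrix.sum_apply]
    change (if b < a then MS_s p a b else 0) = _
    have h2 : ∀ q : Pr m, MS_s (MS_cf p (false, q) • bv false q) a b =
        if q.1.2 = a ∧ q.1.1 = b then MS_s p a b else 0 := by
      intro q
      rw [map_smul, MS_sbf]
      change MS_cf p (false, q) * Matrix.single q.1.2 q.1.1 (1 : ℂ) a b = _
      have h3 : MS_cf p (false, q) = MS_s p q.1.2 q.1.1 := if_neg (by simp)
      rw [h3, Matrix.single_apply]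
      by_cases h4 : q.1.2 = a ∧ q.1.1 = b
      · rw [if_pos h4, if_pos h4, h4.1, h4.2, mul_one]
      · rw [if_neg h4, if_neg h4, mul_zero]
    rw [Finset.sum_congr rfl fun q _ => h2 q]
    by_cases hab : b < a
    · rw [if_pos hab, Finset.sum_eq_single (⟨(b, a), hab⟩ : Pr m)]
      · rw [if_pos ⟨rfl, rfl⟩]
      · intro q _ hq
        refine if_neg fun h5 => hq (Subtype.ext (Prod.ext h5.2 h5.1))
      · exact fun h => absurd (Finset.mem_univ _) h
    · rw [if_neg hab]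
      refine (Finset.sum_eq_zero fun q _ => if_neg fun h5 => hab ?_).symm
      rw [← h5.1, ← h5.2]
      exact q.2
  · rw [MS_rn, h0, zero_mul, mul_zero, sub_zero, sub_zero, map_add, map_sum, map_sum]
    have h1 : ∑ q : Pr m, MS_n (MS_cf p (false, q) • bv false q) = 0 := by
      refine Finset.sum_eq_zero fun q _ => ?_
      rw [map_smul, MS_nbf, smul_zero]
    rw [h1, add_zero]
    funext a b
    rw [Matrix.sum_apply]
    have h2 : ∀ q : Pr m, MS_n (MS_cf p (true, q) • bv true q) a b =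
        if q.1.1 = a ∧ q.1.2 = b then MS_n p a b else 0 := by
      intro q
      rw [map_smul, MS_nbt]
      change MS_cf p (true, q) * Matrix.single q.1.1 q.1.2 (1 : ℂ) a b = _
      have h3 : MS_cf p (true, q) = MS_n p q.1.1 q.1.2 := if_pos rfl
      rw [h3, Matrix.single_apply]
      by_cases h4 : q.1.1 = a ∧ q.1.2 = b
      · rw [if_pos h4, if_pos h4, h4.1, h4.2, mul_one]
      · rw [if_neg h4, if_neg h4, mul_zero]
    rw [Finset.sum_congr rfl fun q _ => h2 q]
    by_cases hab : a < b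
    · rw [Finset.sum_eq_single (⟨(a, b), hab⟩ : Pr m)]
      · rw [if_pos ⟨rfl, rfl⟩]
      · intro q _ hq
        refine if_neg fun h5 => hq (Subtype.ext (Prod.ext h5.1 h5.2))
      · exact fun h => absurd (Finset.mem_univ _) h
    · rw [Finset.sum_eq_zero fun q _ => if_neg fun h5 => hab ?_]
      · exact p.2.2 a b (not_lt.1 hab)
      · rw [← h5.1, ← h5.2]
        exact q.2

/-! ## the span of all monomials -/

/-- the span of the monomials with injective `u` -/
private noncomputable def MS_U (m j : ℕ) : Submodule ℂ (Nn m → Wedge j (Tot m)) :=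
  Submodule.span ℂ {x | ∃ (β : Pr m → ℕ) (u : Fin j → Bool × Pr m),
    Function.Injective u ∧ x = mon β u}

private theorem MS_mon_mem {m j : ℕ} (β : Pr m → ℕ) (u : Fin j → Bool × Pr m) :
    mon β u ∈ MS_U m j := by
  by_cases hu : Function.Injective u
  · exact Submodule.subset_span ⟨β, u, hu, rfl⟩
  · have h1 : mon β u = 0 := by
      funext ν
      have h2 : ¬ Function.Injective fun r => bv (u r).1 (u r).2 := by
        intro h
        exact hu fun a b hab => h (by change bv (u a).1 (u a).2 = bv (u b).1 (u b).2; rw [hab])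
      change (∏ p : Pr m, matN ν p.1.1 p.1.2 ^ β p) • wi (fun r => bv (u r).1 (u r).2) = 0
      rw [MS_inj _ h2, smul_zero]
    rw [h1]
    exact Submodule.zero_mem _

/-- `w ↦ (ν ↦ a ν • w)` -/
private noncomputable def MS_L {m j : ℕ} (a : Nn m → ℂ) :
    Wedge j (Tot m) →ₗ[ℂ] (Nn m → Wedge j (Tot m)) where
  toFun w := fun ν => a ν • wL j (red (0 : Nn m)) w
  map_add' w w' := funext fun ν => by
    change a ν • wL j (red 0) (w + w') = a ν • wL j (red 0) w + a ν • wL j (red 0) w'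
    rw [map_add, smul_add]
  map_smul' c w := funext fun ν => by
    change a ν • wL j (red 0) (c • w) = c • (a ν • wL j (red 0) w)
    rw [map_smul, smul_comm]

private theorem MS_L2 {m j : ℕ} (β : Pr m → ℕ) (w : Wedge j (Tot m)) :
    MS_L (fun ν : Nn m => ∏ p : Pr m, matN ν p.1.1 p.1.2 ^ β p) w ∈ MS_U m j := by
  have hsp : (⊤ : Submodule ℂ (Wedge j (Tot m))) ≤
      (MS_U m j).comap (MS_L (fun ν : Nn m => ∏ p : Pr m, matN ν p.1.1 p.1.2 ^ β p)) := by
    have h1 : Submodule.span ℂ (Set.range (exteriorPower.ιMulti ℂ j (M := Tot m))) = ⊤ :=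
      exteriorPower.ιMulti_span ℂ j (Tot m)
    rw [← show (Submodule.span ℂ (Set.range (exteriorPower.ιMulti ℂ j (M := Tot m))) :
      Submodule ℂ (Wedge j (Tot m))) = ⊤ from h1]
    refine Submodule.span_le.2 ?_
    rintro _ ⟨v, rfl⟩
    change MS_L (fun ν : Nn m => ∏ p : Pr m, matN ν p.1.1 p.1.2 ^ β p) (wi v) ∈ MS_U m j
    have h2 : MS_L (fun ν : Nn m => ∏ p : Pr m, matN ν p.1.1 p.1.2 ^ β p) (wi v) =
        ∑ u : Fin j → Bool × Pr m, (∏ r, MS_cf (v r) (u r)) • mon β u := by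
      funext ν
      rw [Finset.sum_apply]
      change (∏ p : Pr m, matN ν p.1.1 p.1.2 ^ β p) • wL j (red (0 : Nn m)) (wi v) = _
      have h3 : wL j (red (0 : Nn m)) (wi v) =
          ∑ u : Fin j → Bool × Pr m, (∏ r, MS_cf (v r) (u r)) •
            wi fun r => bv (u r).1 (u r).2 := by
        rw [MS_wL]
        have h4 : (fun r => red (0 : Nn m) (v r)) =
            fun r => ∑ i : Bool × Pr m, MS_cf (v r) i • bv i.1 i.2 :=
          funext fun r => MS_red0 (v r)
        rw [h4, MS_sum]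
        exact Finset.sum_congr rfl fun u _ =>
          MS_smul (fun r => MS_cf (v r) (u r)) fun r => bv (u r).1 (u r).2
      rw [h3, Finset.smul_sum]
      refine Finset.sum_congr rfl fun u _ => ?_
      rw [smul_comm]
      rfl
    rw [h2]
    exact Submodule.sum_mem _ fun u _ => Submodule.smul_mem _ _ (MS_mon_mem β u)
  exact hsp Submodule.mem_top

private theorem MS_prod {m : ℕ} (d : Fin m × Fin m →₀ ℕ) (ν : Nn m) :
    (∏ i, matN ν i.1 i.2 ^ d i) = (if ∀ i : Fin m × Fin m, ¬ i.1 < i.2 → d i = 0 then (1 : ℂ) else 0) *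
      ∏ p : Pr m, matN ν p.1.1 p.1.2 ^ d p.1 := by
  by_cases h : ∀ i : Fin m × Fin m, ¬ i.1 < i.2 → d i = 0
  · rw [if_pos h, one_mul]
    have h1 : ∏ i ∈ Finset.univ.filter (fun i : Fin m × Fin m => i.1 < i.2), matN ν i.1 i.2 ^ d i =
        ∏ i, matN ν i.1 i.2 ^ d i := by
      refine Finset.prod_subset (Finset.filter_subset _ _) fun i _ hi => ?_
      have h2 : ¬ i.1 < i.2 := fun h3 => hi (Finset.mem_filter.2 ⟨Finset.mem_univ _, h3⟩)
      rw [h i h2, pow_zero]
    rw [← h1]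
    exact Finset.prod_subtype _ (fun i => by simp) fun i : Fin m × Fin m => matN ν i.1 i.2 ^ d i
  · rw [if_neg h, zero_mul]
    push Not at h
    obtain ⟨i, h1, h2⟩ := h
    refine Finset.prod_eq_zero (Finset.mem_univ i) ?_
    have h3 : matN ν i.1 i.2 = 0 := ν.2 i.1 i.2 h1
    rw [h3, zero_pow h2]

private theorem MS_L3 {m j : ℕ} (P : MvPolynomial (Fin m × Fin m) ℂ) (w : Wedge j (Tot m)) :
    MS_L (fun ν : Nn m => MvPolynomial.eval (fun i : Fin m × Fin m => matN ν i.1 i.2) P) w ∈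
      MS_U m j := by
  have h1 : MS_L (fun ν : Nn m => MvPolynomial.eval (fun i : Fin m × Fin m => matN ν i.1 i.2) P) w =
      ∑ d ∈ P.support, (P.coeff d *
        if ∀ i : Fin m × Fin m, ¬ i.1 < i.2 → d i = 0 then (1 : ℂ) else 0) •
        MS_L (fun ν : Nn m => ∏ p : Pr m, matN ν p.1.1 p.1.2 ^ d p.1) w := by
    funext ν
    rw [Finset.sum_apply]
    change MvPolynomial.eval (fun i : Fin m × Fin m => matN ν i.1 i.2) P •
      wL j (red (0 : Nn m)) w = _
    rw [MvPolynomial.eval_eq', Finset.sum_smul]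
    refine Finset.sum_congr rfl fun d _ => ?_
    rw [MS_prod, ← mul_assoc, mul_smul]
    rfl
  rw [h1]
  exact Submodule.sum_mem _ fun d _ => Submodule.smul_mem _ _ (MS_L2 (fun p => d p.1) w)

private theorem MS_L4 {m j : ℕ} (q : Nn m → Wedge j (Tot m)) (hq : Reg q)
    (hr : ∀ ν, wL j (red (0 : Nn m)) (q ν) = q ν) : q ∈ MS_U m j := by
  obtain ⟨n, a, v, ha, h1⟩ := hq
  choose P hP using ha
  have h2 : q = ∑ k : Fin n, MS_L
      (fun ν : Nn m => MvPolynomial.eval (fun i : Fin m × Fin m => matN ν i.1 i.2) (P k)) (v k) := by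
    funext ν
    rw [Finset.sum_apply, ← hr ν, h1, map_sum]
    refine Finset.sum_congr rfl fun k _ => ?_
    rw [map_smul, hP k ν]
    rfl
  rw [h2]
  exact Submodule.sum_mem _ fun k _ => MS_L3 (P k) (v k)

/-! ## weights -/

/-- number of vertical directions -/
private def MS_nu {m j : ℕ} (u : Fin j → Bool × Pr m) : ℕ :=
  (Finset.univ.filter fun r => (u r).1 = true).card

private theorem MS_sc {m j : ℕ} (c : ℂ) (β : Pr m → ℕ) (u : Fin j → Bool × Pr m) (ν : Nn m) :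
    mon β u (scN c ν) = c ^ (∑ p, β p) • mon β u ν := by
  change (∏ p : Pr m, (c * matN ν p.1.1 p.1.2) ^ β p) • wi (fun r => bv (u r).1 (u r).2) =
    c ^ (∑ p, β p) • ((∏ p : Pr m, matN ν p.1.1 p.1.2 ^ β p) • wi fun r => bv (u r).1 (u r).2)
  rw [smul_smul, ← Finset.prod_pow_eq_pow_sum, ← Finset.prod_mul_distrib]
  congr 1
  exact Finset.prod_congr rfl fun p _ => mul_pow _ _ _

private theorem MS_dil {m j : ℕ} (c : ℂ) (β : Pr m → ℕ) (u : Fin j → Bool × Pr m) (ν : Nn m) :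
    wL j (dilTot c) (mon β u ν) = c ^ MS_nu u • mon β u ν := by
  change wL j (dilTot c) ((∏ p : Pr m, matN ν p.1.1 p.1.2 ^ β p) •
      wi fun r => bv (u r).1 (u r).2) =
    c ^ MS_nu u • ((∏ p : Pr m, matN ν p.1.1 p.1.2 ^ β p) • wi fun r => bv (u r).1 (u r).2)
  rw [map_smul, MS_wL, smul_comm (c ^ MS_nu u)]
  congr 1
  have h1 : (fun r => dilTot c (bv (u r).1 (u r).2)) =
      fun r => (if (u r).1 = true then c else 1) • bv (u r).1 (u r).2 :=
    funext fun r => MS_dil_bv c _ _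
  rw [h1, MS_smul]
  congr 1
  rw [Finset.prod_ite, Finset.prod_const, Finset.prod_const_one, mul_one]
  rfl

private theorem MS_nf {m j : ℕ} (β : Pr m → ℕ) (u : Fin j → Bool × Pr m) (ν : Nn m) :
    wL j (red ν) (mon β u ν) = mon β u ν := by
  change wL j (red ν) ((∏ p : Pr m, matN ν p.1.1 p.1.2 ^ β p) •
      wi fun r => bv (u r).1 (u r).2) =
    (∏ p : Pr m, matN ν p.1.1 p.1.2 ^ β p) • wi fun r => bv (u r).1 (u r).2
  rw [map_smul, MS_wL]
  congr 2
  exact funext fun r => MS_red_bv ν _ _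

private theorem MS_reg {m j : ℕ} (β : Pr m → ℕ) (u : Fin j → Bool × Pr m) : Reg (mon β u) := by
  have h1 : RegF fun ν : Nn m => ∏ p : Pr m, matN ν p.1.1 p.1.2 ^ β p :=
    RegF.prod Finset.univ fun p _ => (RegF.co (X := Nn m) p.1).pow (β p)
  exact Reg.smulConst h1 _

private theorem MS_dg {m j : ℕ} (k : ℤ) (β : Pr m → ℕ) (u : Fin j → Bool × Pr m) :
    Dg k β u ↔ 2 * ((∑ p, β p : ℕ) : ℤ) = k + 2 * (MS_nu u : ℤ) := by
  unfold Dg MS_nu
  push_cast
  rfl

private theorem MS_one {m j : ℕ} (k : ℤ) (β : Pr m → ℕ) (u : Fin j → Bool × Pr m)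
    (h : Dg k β u) : mon β u ∈ Mjk m j k := by
  refine ⟨MS_reg β u, MS_nf β u, fun c hc ν => ?_⟩
  rw [MS_sc, MS_dil, smul_smul]
  congr 1
  rw [MS_dg] at h
  rw [← pow_mul, ← pow_mul, ← zpow_natCast, ← zpow_natCast c (2 * MS_nu u), ← zpow_add₀ hc]
  congr 1

/-! ## the operator -/

private noncomputable def MS_T (m j : ℕ) : Module.End ℂ (Nn m → Wedge j (Tot m)) where
  toFun q := fun ν => wL j (dilTot (((2 : ℂ) ^ 2)⁻¹)) (q (scN ((2 : ℂ) ^ 2) ν))
  map_add' q q' := funext fun ν => map_add _ _ _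
  map_smul' c q := funext fun ν => by
    change wL j (dilTot (((2 : ℂ) ^ 2)⁻¹)) (c • q (scN ((2 : ℂ) ^ 2) ν)) =
      c • wL j (dilTot (((2 : ℂ) ^ 2)⁻¹)) (q (scN ((2 : ℂ) ^ 2) ν))
    rw [map_smul]

private theorem MS_Tmon {m j : ℕ} (β : Pr m → ℕ) (u : Fin j → Bool × Pr m) :
    MS_T m j (mon β u) = (2 : ℂ) ^ (2 * ((∑ p, β p : ℕ) : ℤ) - 2 * (MS_nu u : ℤ)) • mon β u := by
  funext ν
  change wL j (dilTot (((2 : ℂ) ^ 2)⁻¹)) (mon β u (scN ((2 : ℂ) ^ 2) ν)) =
    (2 : ℂ) ^ (2 * ((∑ p, β p : ℕ) : ℤ) - 2 * (MS_nu u : ℤ)) • mon β u ν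
  rw [MS_sc, map_smul, MS_dil, smul_smul]
  congr 1
  have h2 : (2 : ℂ) ≠ 0 := two_ne_zero
  rw [inv_pow, ← pow_mul, ← pow_mul, sub_eq_add_neg, zpow_add₀ h2, zpow_neg]
  congr 1

private theorem MS_Tq {m j : ℕ} {k : ℤ} {q : Nn m → Wedge j (Tot m)} (hq : q ∈ Mjk m j k) :
    MS_T m j q = (2 : ℂ) ^ k • q := by
  funext ν
  change wL j (dilTot (((2 : ℂ) ^ 2)⁻¹)) (q (scN ((2 : ℂ) ^ 2) ν)) = (2 : ℂ) ^ k • q ν
  rw [hq.2.2 2 two_ne_zero ν, map_smul, wL_comp]
  congr 1
  have h1 : dilTot (m := m) (((2 : ℂ) ^ 2)⁻¹) ∘ₗ dilTot ((2 : ℂ) ^ 2) = LinearMap.id := by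
    refine LinearMap.ext fun p => MS_ext rfl ?_
    change (((2 : ℂ) ^ 2)⁻¹) • (((2 : ℂ) ^ 2) • matN p.2) = matN p.2
    rw [smul_smul, inv_mul_cancel₀ (by norm_num), one_smul]
  rw [h1, wL_id]

private theorem MS_pow {e k : ℤ} (h : (2 : ℂ) ^ e = (2 : ℂ) ^ k) : e = k := by
  have h1 : ((2 : ℝ) ^ e : ℝ) = (2 : ℝ) ^ k := by
    apply Complex.ofReal_injective
    push_cast
    exact h
  exact zpow_right_injective₀ (by norm_num) (by norm_num) h1

private theorem MS_span {m j : ℕ} {k : ℤ} (hRd : S_Rd) {q : Nn m → Wedge j (Tot m)}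
    (hq : q ∈ Mjk m j k) : q ∈ Submodule.span ℂ {x | ∃ (β : Pr m → ℕ) (u : Fin j → Bool × Pr m),
      Function.Injective u ∧ Dg k β u ∧ x = mon β u} := by
  have h0 : ∀ ν, wL j (red (0 : Nn m)) (q ν) = q ν := by
    intro ν
    have h1 : wL j (red (0 : Nn m)) (wL j (red ν) (q ν)) = wL j (red ν) (q ν) := by
      rw [wL_comp]
      congr 1
      congr 1
      exact LinearMap.ext fun p => (hRd m).1 ν 0 p
    rw [hq.2.1 ν] at h1
    exact h1
  have h1 := MS_L4 q hq.1 h0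
  have h2 : MS_U m j ≤ Submodule.span ℂ {x | ∃ (β : Pr m → ℕ) (u : Fin j → Bool × Pr m),
      Function.Injective u ∧ Dg k β u ∧ x = mon β u} ⊔
      Submodule.span ℂ {x | ∃ (β : Pr m → ℕ) (u : Fin j → Bool × Pr m), ¬ Dg k β u ∧
        x = mon β u} := by
    refine Submodule.span_le.2 ?_
    rintro _ ⟨β, u, hu, rfl⟩
    by_cases hd : Dg k β u
    · exact Submodule.mem_sup_left (Submodule.subset_span ⟨β, u, hu, hd, rfl⟩)
    · exact Submodule.mem_sup_right (Submodule.subset_span ⟨β, u, hd, rfl⟩)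
  obtain ⟨a, ha, b, hb, hab⟩ := Submodule.mem_sup.1 (h2 h1)
  have ha' : MS_T m j a = (2 : ℂ) ^ k • a := by
    have h3 : Submodule.span ℂ {x | ∃ (β : Pr m → ℕ) (u : Fin j → Bool × Pr m),
      Function.Injective u ∧ Dg k β u ∧ x = mon β u} ≤ (MS_T m j).eigenspace ((2 : ℂ) ^ k) := by
      refine Submodule.span_le.2 ?_
      rintro _ ⟨β, u, hu, hd, rfl⟩
      refine Module.End.mem_eigenspace_iff.2 ?_
      rw [MS_dg] at hd
      rw [MS_Tmon]
      congr 2
      linarith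
    exact Module.End.mem_eigenspace_iff.1 (h3 ha)
  have hb1 : b ∈ (MS_T m j).eigenspace ((2 : ℂ) ^ k) := by
    refine Module.End.mem_eigenspace_iff.2 ?_
    have h3 : b = q - a := by rw [← hab, add_sub_cancel_left]
    rw [h3, map_sub, MS_Tq hq, ha', smul_sub]
  have hb2 : b ∈ ⨆ (μ : ℂ) (_ : μ ≠ (2 : ℂ) ^ k), (MS_T m j).eigenspace μ := by
    have h3 : Submodule.span ℂ {x | ∃ (β : Pr m → ℕ) (u : Fin j → Bool × Pr m), ¬ Dg k β u ∧
        x = mon β u} ≤ ⨆ (μ : ℂ) (_ : μ ≠ (2 : ℂ) ^ k), (MS_T m j).eigenspace μ := by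
      refine Submodule.span_le.2 ?_
      rintro _ ⟨β, u, hd, rfl⟩
      have h4 : (2 : ℂ) ^ (2 * ((∑ p, β p : ℕ) : ℤ) - 2 * (MS_nu u : ℤ)) ≠ (2 : ℂ) ^ k := by
        intro h5
        have h6 := MS_pow h5
        refine hd ((MS_dg k β u).2 ?_)
        linarith
      refine (le_iSup₂_of_le _ h4 le_rfl :
        (MS_T m j).eigenspace ((2 : ℂ) ^ (2 * ((∑ p, β p : ℕ) : ℤ) - 2 * (MS_nu u : ℤ))) ≤
          ⨆ (μ : ℂ) (_ : μ ≠ (2 : ℂ) ^ k), (MS_T m j).eigenspace μ) ?_
      exact Module.End.mem_eigenspace_iff.2 (MS_Tmon β u)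
    exact h3 hb
  have hb0 : b = 0 := by
    have h3 := (MS_T m j).eigenspaces_iSupIndep ((2 : ℂ) ^ k)
    exact Submodule.disjoint_def.1 h3 b hb1 hb2
  rw [← hab, hb0, add_zero]
  exact ha

theorem tMS (hRd : S_Rd) : S_MS := by
  intro m j k
  have hfin : Set.Finite {x : Nn m → Wedge j (Tot m) | ∃ (β : Pr m → ℕ)
      (u : Fin j → Bool × Pr m), Function.Injective u ∧ Dg k β u ∧ x = mon β u} := by
    have h1 : Set.Finite {β : Pr m → ℕ | 2 * ((∑ p, β p : ℕ) : ℤ) ≤ k + 2 * (j : ℤ)} := by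
      refine (Set.finite_Icc (0 : Pr m → ℕ) fun _ => (k + 2 * (j : ℤ)).toNat).subset ?_
      intro β hβ
      refine ⟨fun p => Nat.zero_le _, fun p => ?_⟩
      have h2 : β p ≤ ∑ p, β p := Finset.single_le_sum (fun _ _ => Nat.zero_le _) (Finset.mem_univ p)
      have h3 : 2 * ((∑ p, β p : ℕ) : ℤ) ≤ k + 2 * (j : ℤ) := hβ
      change β p ≤ (k + 2 * (j : ℤ)).toNat
      omega
    refine (Set.Finite.image2 (fun (β : Pr m → ℕ) (u : Fin j → Bool × Pr m) => mon β u) h1
      (Set.finite_univ : Set.Finite (Set.univ : Set (Fin j → Bool × Pr m)))).subset ?_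
    rintro _ ⟨β, u, hu, hd, rfl⟩
    refine ⟨β, ?_, u, Set.mem_univ u, rfl⟩
    rw [MS_dg] at hd
    have h2 : MS_nu u ≤ j := by
      unfold MS_nu
      refine (Finset.card_le_univ _).trans ?_
      rw [Fintype.card_fin]
    change 2 * ((∑ p, β p : ℕ) : ℤ) ≤ k + 2 * (j : ℤ)
    rw [hd]
    have h3 : (MS_nu u : ℤ) ≤ j := by exact_mod_cast h2
    linarith
  refine ⟨fun β u h => MS_one k β u h, ?_, fun q => MS_span hRd q.2⟩
  have h1 : Mjk m j k ≤ Submodule.span ℂ {x : Nn m → Wedge j (Tot m) | ∃ (β : Pr m → ℕ)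
      (u : Fin j → Bool × Pr m), Function.Injective u ∧ Dg k β u ∧ x = mon β u} :=
    fun q hq => MS_span hRd hq
  have h2 := FiniteDimensional.span_of_finite ℂ hfin
  exact Submodule.finiteDimensional_of_le h1

end PV
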