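import Pool.Agent.Lib.MP_3b3418_ag.PV.SpecM

/-!
# MW: monomials are weight vectors for the torus
-/

set_option autoImplicit false

namespace PV

open MP3s

/-- The inverse of a diagonal matrix. -/
private theorem MW_inv {m : ℕ} {t : Bo m} (ht : IsT t) (a b : Fin m) :
    mB t⁻¹ a b = if a = b then (mB t a a)⁻¹ else 0 := by
  have h1 : mB t = Matrix.diagonal fun i => mB t i i := by
    ext i l
    by_cases h : i = l
    · rw [h, Matrix.diagonal_apply_eq]
    · rw [Matrix.diagonal_apply_ne _ h, ht i l h]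
  have h2 : mB t⁻¹ * mB t = 1 := mat_inv_mul t.1
  have h3 : mB t⁻¹ a b * mB t b b = (1 : Gl m) a b := by
    rw [← h2]
    conv_rhs => rw [h1, Matrix.mul_diagonal]
  by_cases h : a = b
  · rw [if_pos h]
    subst h
    rw [Matrix.one_apply_eq] at h3
    exact eq_inv_of_mul_eq_one_left h3
  · rw [if_neg h]
    rw [Matrix.one_apply_ne h] at h3
    exact (mul_eq_zero.mp h3).resolve_right (mB_diag_ne t b)

/-- The inverse is in the torus. -/
private theorem MW_isT {m : ℕ} {t : Bo m} (ht : IsT t) : IsT t⁻¹ := fun i j hij => by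
  rw [MW_inv ht, if_neg hij]

/-- Conjugation by a torus element. -/
private theorem MW_conj {m : ℕ} {t : Bo m} (ht : IsT t) (X : Gl m) (a b : Fin m) :
    (mat (t.1)⁻¹ * (X * mat t.1)) a b = (mB t a a)⁻¹ * (X a b * mB t b b) := by
  have h1 : mat (t.1)⁻¹ = Matrix.diagonal fun i => (mB t i i)⁻¹ := by
    ext i l
    change mB t⁻¹ i l = _
    rw [MW_inv ht]
    by_cases h : i = l
    · rw [if_pos h, h, Matrix.diagonal_apply_eq]
    · rw [if_neg h, Matrix.diagonal_apply_ne _ h]
  have h2 : mat t.1 = Matrix.diagonal fun i => mB t i i := by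
    ext i l
    change mB t i l = _
    by_cases h : i = l
    · rw [h, Matrix.diagonal_apply_eq]
    · rw [Matrix.diagonal_apply_ne _ h, ht i l h]
  rw [h1, h2, Matrix.diagonal_mul, Matrix.mul_diagonal]

/-- The same for the inverse. -/
private theorem MW_conj' {m : ℕ} {t : Bo m} (ht : IsT t) (X : Gl m) (a b : Fin m) :
    (mat (t⁻¹ : Bo m).1⁻¹ * (X * mat (t⁻¹ : Bo m).1)) a b = mB t a a * (X a b * (mB t b b)⁻¹) := by
  rw [MW_conj (MW_isT ht), MW_inv ht, MW_inv ht, if_pos rfl, if_pos rfl, inv_inv]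

/-- Characters: sums. -/
private theorem MW_add {m : ℕ} (χ χ' : Fin m → ℤ) (t : Bo m) :
    chr (χ + χ') t = chr χ t * chr χ' t := by
  unfold chr
  rw [← Finset.prod_mul_distrib]
  exact Finset.prod_congr rfl fun i _ => by rw [Pi.add_apply, zpow_add₀ (mB_diag_ne t i)]

private theorem MW_zero {m : ℕ} (t : Bo m) : chr (0 : Fin m → ℤ) t = 1 :=
  Finset.prod_eq_one fun i _ => by rw [Pi.zero_apply, zpow_zero]

/-- Characters: negatives. -/
private theorem MW_neg {m : ℕ} (χ : Fin m → ℤ) (t : Bo m) : chr (-χ) t = (chr χ t)⁻¹ := by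
  unfold chr
  rw [← Finset.prod_inv_distrib]
  exact Finset.prod_congr rfl fun i _ => by rw [Pi.neg_apply, zpow_neg]

/-- Characters: finite sums. -/
private theorem MW_sum {m : ℕ} {ι : Type} (s : Finset ι) (χ : ι → Fin m → ℤ) (t : Bo m) :
    chr (∑ r ∈ s, χ r) t = ∏ r ∈ s, chr (χ r) t := by
  classical
  induction s using Finset.induction_on with
  | empty => rw [Finset.sum_empty, Finset.prod_empty, MW_zero]
  | insert a s ha ih => rw [Finset.sum_insert ha, Finset.prod_insert ha, MW_add, ih]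

/-- Characters: multiples. -/
private theorem MW_mul {m : ℕ} (n : ℕ) (χ : Fin m → ℤ) (t : Bo m) :
    chr ((n : ℤ) • χ) t = chr χ t ^ n := by
  unfold chr
  rw [← Finset.prod_pow]
  refine Finset.prod_congr rfl fun i _ => ?_
  rw [Pi.smul_apply, smul_eq_mul, mul_comm, zpow_mul, zpow_natCast]

/-- Characters: roots. -/
private theorem MW_root {m : ℕ} (a b : Fin m) (t : Bo m) :
    chr (root a b) t = mB t a a * (mB t b b)⁻¹ := by
  have h1 : ∀ c : Fin m, chr (fun k => if k = c then (1 : ℤ) else 0) t = mB t c c := by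
    intro c
    unfold chr
    rw [Finset.prod_eq_single c]
    · change mB t c c ^ (if c = c then (1 : ℤ) else 0) = mB t c c
      rw [if_pos rfl, zpow_one]
    · intro k _ hk
      change mB t k k ^ (if k = c then (1 : ℤ) else 0) = 1
      rw [if_neg hk, zpow_zero]
    · intro h
      exact absurd (Finset.mem_univ c) h
  have h2 : root a b = (fun k => if k = a then (1 : ℤ) else 0) +
      -(fun k => if k = b then (1 : ℤ) else 0) := by
    funext k
    rw [Pi.add_apply, Pi.neg_apply, ← sub_eq_add_neg]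
    rfl
  rw [h2, MW_add, MW_neg, h1, h1]

/-- The basis vectors are weight vectors. -/
private theorem MW_Ad {m : ℕ} {t : Bo m} (ht : IsT t) (s : Bool) (p : Pr m) :
    Ad t (bv s p) = chr (if s = true then rt p else -rt p) t • bv s p := by
  cases s with
  | true =>
    rw [if_pos rfl]
    change ((conjS (t⁻¹ : Bo m).1 (0 : Sl m), conjN (t⁻¹ : Bo m).1 (t⁻¹ : Bo m).2
      (⟨Matrix.single p.1.1 p.1.2 1, bv_strict p⟩ : Nn m)) : Tot m) =
      (chr (rt p) t • (0 : Sl m), chr (rt p) t •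
        (⟨Matrix.single p.1.1 p.1.2 1, bv_strict p⟩ : Nn m))
    refine Prod.ext (Subtype.ext ?_) (Subtype.ext ?_)
    · change mat (t⁻¹ : Bo m).1⁻¹ * ((0 : Gl m) * mat (t⁻¹ : Bo m).1) = chr (rt p) t • (0 : Gl m)
      rw [zero_mul, mul_zero, smul_zero]
    · change mat (t⁻¹ : Bo m).1⁻¹ * (Matrix.single p.1.1 p.1.2 (1 : ℂ) * mat (t⁻¹ : Bo m).1) =
        chr (rt p) t • Matrix.single p.1.1 p.1.2 (1 : ℂ)
      ext k l
      rw [MW_conj' ht, Matrix.smul_apply, rt, MW_root, Matrix.single_apply]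
      by_cases h : p.1.1 = k ∧ p.1.2 = l
      · rw [if_pos h, h.1, h.2, one_mul, smul_eq_mul, mul_one]
      · rw [if_neg h, zero_mul, mul_zero, smul_zero]
  | false =>
    rw [if_neg (by decide)]
    change ((conjS (t⁻¹ : Bo m).1 (⟨Matrix.single p.1.2 p.1.1 1, bv_trace p⟩ : Sl m),
      conjN (t⁻¹ : Bo m).1 (t⁻¹ : Bo m).2 (0 : Nn m)) : Tot m) =
      (chr (-rt p) t • (⟨Matrix.single p.1.2 p.1.1 1, bv_trace p⟩ : Sl m),
        chr (-rt p) t • (0 : Nn m))
    refine Prod.ext (Subtype.ext ?_) (Subtype.ext ?_)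
    · change mat (t⁻¹ : Bo m).1⁻¹ * (Matrix.single p.1.2 p.1.1 (1 : ℂ) * mat (t⁻¹ : Bo m).1) =
        chr (-rt p) t • Matrix.single p.1.2 p.1.1 (1 : ℂ)
      ext k l
      rw [MW_conj' ht, Matrix.smul_apply, MW_neg, rt, MW_root, Matrix.single_apply]
      by_cases h : p.1.2 = k ∧ p.1.1 = l
      · rw [if_pos h, h.1, h.2, one_mul, smul_eq_mul, mul_one, mul_inv, inv_inv, mul_comm]
      · rw [if_neg h, zero_mul, mul_zero, smul_zero]
    · change mat (t⁻¹ : Bo m).1⁻¹ * ((0 : Gl m) * mat (t⁻¹ : Bo m).1) = chr (-rt p) t • (0 : Gl m)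
      rw [zero_mul, mul_zero, smul_zero]

/-- The basis vectors are in normal form. -/
private theorem MW_red {m : ℕ} (ν : Nn m) (s : Bool) (p : Pr m) : red ν (bv s p) = bv s p := by
  cases s with
  | true =>
    refine Prod.ext (Subtype.ext ?_) (Subtype.ext ?_)
    · change low (0 : Gl m) = 0
      funext a b
      change (if b < a then (0 : ℂ) else 0) = 0
      rw [ite_self]
    · change Matrix.single p.1.1 p.1.2 (1 : ℂ) -
        (matN ν * upp (0 : Gl m) - upp (0 : Gl m) * matN ν) = Matrix.single p.1.1 p.1.2 (1 : ℂ)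
      have h : upp (0 : Gl m) = 0 := by
        funext a b
        change (if b < a then (0 : ℂ) else 0) = 0
        rw [ite_self]
      rw [h, mul_zero, zero_mul, sub_zero, sub_zero]
  | false =>
    have h0 : upp (Matrix.single p.1.2 p.1.1 (1 : ℂ)) = 0 := by
      funext a b
      change (if b < a then (0 : ℂ) else Matrix.single p.1.2 p.1.1 (1 : ℂ) a b) = 0
      split_ifs with h
      · rfl
      · refine Matrix.single_apply_of_ne _ _ _ _ _ fun h1 => h ?_
        rw [← h1.1, ← h1.2]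
        exact p.2
    have h1 : low (Matrix.single p.1.2 p.1.1 (1 : ℂ)) = Matrix.single p.1.2 p.1.1 (1 : ℂ) := by
      have h2 := low_add_upp (Matrix.single p.1.2 p.1.1 (1 : ℂ))
      rw [h0, add_zero] at h2
      exact h2
    refine Prod.ext (Subtype.ext ?_) (Subtype.ext ?_)
    · exact h1
    · change (0 : Gl m) - (matN ν * upp (Matrix.single p.1.2 p.1.1 (1 : ℂ)) -
        upp (Matrix.single p.1.2 p.1.1 (1 : ℂ)) * matN ν) = 0
      rw [h0, mul_zero, zero_mul, sub_zero, sub_zero]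

/-- The image of a wedge product. -/
private theorem MW_wL {V W : Type} [AddCommGroup V] [Module ℂ V] [AddCommGroup W] [Module ℂ W]
    {j : ℕ} (f : V →ₗ[ℂ] W) (v : Fin j → V) : wL j f (wi v) = wi fun r => f (v r) :=
  exteriorPower.map_apply_ιMulti f v

/-- Scalars in a wedge product. -/
private theorem MW_smul {V : Type} [AddCommGroup V] [Module ℂ V] {j : ℕ} (c : Fin j → ℂ)
    (v : Fin j → V) : wi (fun r => c r • v r) = (∏ r, c r) • wi v :=
  (exteriorPower.ιMulti ℂ j (M := V)).toMultilinearMap.map_smul_univ c v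

/-- Monomials are weight vectors. -/
private theorem MW_mon {m j : ℕ} {t : Bo m} (ht : IsT t) (β : Pr m → ℕ)
    (u : Fin j → Bool × Pr m) (ν : Nn m) :
    wL j (red ν) (wL j (Ad t) (mon β u (cN t ν))) = chr (wt β u) t • mon β u ν := by
  have h1 : ∀ p : Pr m, matN (cN t ν) p.1.1 p.1.2 =
      (chr (rt p) t)⁻¹ * matN ν p.1.1 p.1.2 := by
    intro p
    have h2 : matN (cN t ν) p.1.1 p.1.2 = (mat (t.1)⁻¹ * (matN ν * mat t.1)) p.1.1 p.1.2 := rfl
    rw [h2, MW_conj ht, rt, MW_root, mul_inv, inv_inv]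
    ring
  have h3 : (fun r => Ad t (bv (u r).1 (u r).2)) = fun r =>
      chr (if (u r).1 = true then rt (u r).2 else -rt (u r).2) t • bv (u r).1 (u r).2 :=
    funext fun r => MW_Ad ht _ _
  have h4 : (fun r => red ν (bv (u r).1 (u r).2)) = fun r => bv (u r).1 (u r).2 :=
    funext fun r => MW_red ν _ _
  have h5 : chr (wt β u) t = (∏ p : Pr m, ((chr (rt p) t)⁻¹) ^ β p) *
      ∏ r, chr (if (u r).1 = true then rt (u r).2 else -rt (u r).2) t := by
    rw [wt, sub_eq_add_neg, MW_add, MW_neg, MW_sum, MW_sum, mul_comm]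
    congr 1
    rw [← Finset.prod_inv_distrib]
    exact Finset.prod_congr rfl fun p _ => by rw [MW_mul, inv_pow]
  unfold mon
  rw [map_smul, map_smul, MW_wL, h3, MW_smul, map_smul, MW_wL, h4, smul_smul, smul_smul, h5]
  congr 1
  rw [Finset.prod_congr rfl fun p _ => by rw [h1 p, mul_pow], Finset.prod_mul_distrib]
  ring

/-- The monomials are weight vectors and span the module. -/
theorem tMW : S_MS → S_MW := by
  intro hMS m j k ρM hρ
  obtain ⟨h1, -, h3⟩ := hMS m j k
  change Submodule.span ℂ {v : Mjk m j k | ∃ μ ∈ {μ | ∃ (β : Pr m → ℕ) (u : Fin j → Bool × Pr m),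
    Function.Injective u ∧ Dg k β u ∧ μ = wt β u}, ∀ t, IsT t → ρM t v = chr μ t • v} = ⊤
  set S : Submodule ℂ (Mjk m j k) := Submodule.span ℂ {v : Mjk m j k | ∃ μ ∈
    {μ | ∃ (β : Pr m → ℕ) (u : Fin j → Bool × Pr m),
      Function.Injective u ∧ Dg k β u ∧ μ = wt β u}, ∀ t, IsT t → ρM t v = chr μ t • v} with hS
  have h4 : Submodule.span ℂ {x | ∃ (β : Pr m → ℕ) (u : Fin j → Bool × Pr m),
      Function.Injective u ∧ Dg k β u ∧ x = mon β u} ≤ S.map (Mjk m j k).subtype := by
    refine Submodule.span_le.mpr ?_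
    rintro x ⟨β, u, hu, hD, rfl⟩
    refine ⟨⟨mon β u, h1 β u hD⟩, Submodule.subset_span ⟨wt β u, ⟨β, u, hu, hD, rfl⟩,
      fun t ht => ?_⟩, rfl⟩
    refine Subtype.ext (funext fun ν => ?_)
    rw [hρ]
    exact MW_mon ht β u ν
  rw [Submodule.eq_top_iff']
  intro q
  obtain ⟨y, hy, hyq⟩ := h4 (h3 q)
  have h5 : y = q := Subtype.ext hyq
  rw [← h5]
  exact hy

end PV
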