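import Pool.Agent.Lib.MP_3b3418_ag.PV.SpecM

/-!
# Facts on normal forms of tangent vectors
-/

set_option autoImplicit false

namespace PV

open MP3s

/-! ### Regular matrices -/

private def Rd_RE {X : Type} [Co X] {m : ℕ} (M : X → Gl m) : Prop :=
  ∀ a b, RegF fun x => M x a b

private theorem Rd_mul {X : Type} [Co X] {m : ℕ} {M N : X → Gl m} (hM : Rd_RE M) (hN : Rd_RE N) :
    Rd_RE fun x => M x * N x := by
  intro a b
  have h : RegF fun x => ∑ k, M x a k * N x k b :=
    RegF.sum Finset.univ fun k _ => (hM a k).mul (hN k b)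
  obtain ⟨P, hP⟩ := h
  exact ⟨P, fun x => by rw [← hP]; exact Matrix.mul_apply⟩

private theorem Rd_sub {X : Type} [Co X] {m : ℕ} {M N : X → Gl m} (hM : Rd_RE M) (hN : Rd_RE N) :
    Rd_RE fun x => M x - N x := fun a b => (hM a b).sub (hN a b)

private theorem Rd_const {X : Type} [Co X] {m : ℕ} (M : Gl m) : Rd_RE fun _ : X => M :=
  fun a b => RegF.const (M a b)

private theorem Rd_of {X : Type} [Co X] {m : ℕ} {g : X → SLm m} (hg : Mor g) :
    Rd_RE fun x => mat (g x) := fun a b => hg (a, b)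

private theorem Rd_nn {X : Type} [Co X] {m : ℕ} {g : X → Nn m} (hg : Mor g) :
    Rd_RE fun x => matN (g x) := fun a b => hg (a, b)

private theorem Rd_regGl {X : Type} [Co X] {m : ℕ} {M : X → Gl m} (hM : Rd_RE M) : Reg M := by
  have h : Reg fun x => ∑ a, ∑ b, M x a b • (Matrix.single a b (1 : ℂ) : Gl m) :=
    Reg.sum Finset.univ fun a _ => Reg.sum Finset.univ fun b _ => Reg.smulConst (hM a b) _
  have h2 : (fun x => ∑ a, ∑ b, M x a b • (Matrix.single a b (1 : ℂ) : Gl m)) = M := by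
    funext x
    conv_rhs => rw [Matrix.matrix_eq_sum_single (M x)]
    refine Finset.sum_congr rfl fun a _ => Finset.sum_congr rfl fun b _ => ?_
    rw [Matrix.smul_single, smul_eq_mul, mul_one]
  rw [h2] at h
  exact h

private def Rd_emb (m : ℕ) : Tot m →ₗ[ℂ] Gl m × Gl m where
  toFun p := (matS p.1, matN p.2)
  map_add' _ _ := rfl
  map_smul' _ _ := rfl

private theorem Rd_emb_inj (m : ℕ) : Function.Injective (Rd_emb m) := by
  intro p q h
  have h1 : matS p.1 = matS q.1 := congrArg Prod.fst h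
  have h2 : matN p.2 = matN q.2 := congrArg Prod.snd h
  exact Prod.ext (Subtype.ext h1) (Subtype.ext h2)

private theorem Rd_regTot {X : Type} [Co X] {m : ℕ} {f : X → Tot m}
    (h1 : Rd_RE fun x => matS (f x).1) (h2 : Rd_RE fun x => matN (f x).2) : Reg f := by
  obtain ⟨L, hL⟩ := (Rd_emb m).exists_leftInverse_of_injective
    (LinearMap.ker_eq_bot.2 (Rd_emb_inj m))
  have h3 := (Rd_regGl h1).map (LinearMap.inl ℂ (Gl m) (Gl m))
  have h4 := (Rd_regGl h2).map (LinearMap.inr ℂ (Gl m) (Gl m))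
  have h5 := (h3.add h4).map L
  have h6 : (fun x => L (LinearMap.inl ℂ (Gl m) (Gl m) (matS (f x).1) +
      LinearMap.inr ℂ (Gl m) (Gl m) (matN (f x).2))) = f := by
    funext x
    have h7 : LinearMap.inl ℂ (Gl m) (Gl m) (matS (f x).1) +
        LinearMap.inr ℂ (Gl m) (Gl m) (matN (f x).2) = Rd_emb m (f x) := by
      refine Prod.ext ?_ ?_
      · exact add_zero _
      · exact zero_add _
    rw [h7]
    exact LinearMap.congr_fun hL (f x)
  rw [h6] at h5
  exact h5

/-! ### Exterior powers of regular families -/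

private theorem Rd_multi {X V W : Type} [Co X] [AddCommGroup V] [Module ℂ V] [AddCommGroup W]
    [Module ℂ W] {j : ℕ} (F : MultilinearMap ℂ (fun _ : Fin j => V) W) {f : Fin j → X → V}
    (hf : ∀ r, Reg (f r)) : Reg fun x => F fun r => f r x := by
  choose n a v ha h1 using hf
  have h2 : Reg fun x => ∑ k : (∀ r : Fin j, Fin (n r)),
      (∏ r, a r (k r) x) • F fun r => v r (k r) :=
    Reg.sum Finset.univ fun k _ => Reg.smulConst (RegF.prod Finset.univ fun r _ => ha r (k r)) _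
  have h3 : (fun x => ∑ k : (∀ r : Fin j, Fin (n r)),
      (∏ r, a r (k r) x) • F fun r => v r (k r)) = fun x => F fun r => f r x := by
    funext x
    have h4 : (fun r => f r x) = fun r => ∑ k, a r k x • v r k := funext fun r => h1 r x
    rw [h4, MultilinearMap.map_sum]
    refine Finset.sum_congr rfl fun k _ => ?_
    exact (F.map_smul_univ (fun r => a r (k r) x) (fun r => v r (k r))).symm
  rw [h3] at h2
  exact h2

private theorem Rd_wedge {X V W : Type} [Co X] [AddCommGroup V] [Module ℂ V] [AddCommGroup W]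
    [Module ℂ W] (j : ℕ) {θ : X → V →ₗ[ℂ] W} (hθ : ∀ v, Reg fun x => θ x v) (w : Wedge j V) :
    Reg fun x => wL j (θ x) w := by
  have key : ∀ z : ⋀[ℂ]^j V,
      z ∈ Submodule.span ℂ (Set.range (exteriorPower.ιMulti ℂ j (M := V))) := by
    intro z
    rw [exteriorPower.ιMulti_span]
    exact Submodule.mem_top
  have hw : w ∈ (Submodule.span ℂ (Set.range (exteriorPower.ιMulti ℂ j (M := V))) :
      Submodule ℂ (Wedge j V)) := key w
  induction hw using Submodule.span_induction with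
  | mem y hy =>
    obtain ⟨v, rfl⟩ := hy
    have h1 := Rd_multi (exteriorPower.ιMulti ℂ j (M := W)).toMultilinearMap
      (f := fun r x => θ x (v r)) fun r => hθ (v r)
    have h2 : (fun x => (exteriorPower.ιMulti ℂ j (M := W)).toMultilinearMap
        fun r => θ x (v r)) = fun x => exteriorPower.map j (θ x) (exteriorPower.ιMulti ℂ j v) := by
      funext x
      exact (exteriorPower.map_apply_ιMulti (θ x) v).symm
    rw [h2] at h1
    exact h1
  | zero =>
    have h1 : (fun x => wL j (θ x) (0 : Wedge j V)) = fun _ => (0 : Wedge j W) :=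
      funext fun x => map_zero _
    rw [h1]
    exact Reg.zero
  | add y z _ _ hy hz =>
    have h1 : (fun x => wL j (θ x) (y + z)) = fun x => wL j (θ x) y + wL j (θ x) z :=
      funext fun x => map_add _ _ _
    rw [h1]
    exact hy.add hz
  | smul c y _ hy =>
    have h1 : (fun x => wL j (θ x) (c • y)) = fun x => c • wL j (θ x) y :=
      funext fun x => map_smul _ _ _
    rw [h1]
    exact hy.cSmul c

/-! ### Conjugation -/

private theorem Rd_conj_mat {m : ℕ} (b b' : SLm m) (y : Gl m) :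
    mat b'⁻¹ * ((mat b⁻¹ * (y * mat b)) * mat b') = mat (b * b')⁻¹ * (y * mat (b * b')) := by
  have h1 : mat (b * b')⁻¹ = mat b'⁻¹ * mat b⁻¹ := by
    rw [_root_.mul_inv_rev, mat_mul]
  rw [h1, mat_mul]
  simp only [mul_assoc]

private theorem Rd_conjTot_mul {m : ℕ} (b b' : SLm m) (hb : Upper (mat b)) (hb' : Upper (mat b'))
    (h : Upper (mat (b * b'))) (p : Tot m) :
    conjTot b' hb' (conjTot b hb p) = conjTot (b * b') h p := by
  refine Prod.ext (Subtype.ext ?_) (Subtype.ext ?_)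
  · exact Rd_conj_mat b b' (matS p.1)
  · exact Rd_conj_mat b b' (matN p.2)

private theorem Rd_conjN_mul {m : ℕ} (b b' : SLm m) (hb : Upper (mat b)) (hb' : Upper (mat b'))
    (h : Upper (mat (b * b'))) (ν : Nn m) :
    conjN b' hb' (conjN b hb ν) = conjN (b * b') h ν :=
  Subtype.ext (Rd_conj_mat b b' (matN ν))

private theorem Rd_one_mat {m : ℕ} (y : Gl m) : mat (1 : SLm m)⁻¹ * (y * mat (1 : SLm m)) = y := by
  rw [inv_one, mat_one, one_mul, mul_one]

private theorem Rd_conjTot_one {m : ℕ} (b : SLm m) (hb : Upper (mat b)) (h : b = 1) (p : Tot m) :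
    conjTot b hb p = p := by
  subst h
  refine Prod.ext (Subtype.ext ?_) (Subtype.ext ?_)
  · exact Rd_one_mat (matS p.1)
  · exact Rd_one_mat (matN p.2)

private theorem Rd_conjN_one {m : ℕ} (b : SLm m) (hb : Upper (mat b)) (h : b = 1) (ν : Nn m) :
    conjN b hb ν = ν := by
  subst h
  exact Subtype.ext (Rd_one_mat (matN ν))

private theorem Rd_conjTot_congr {m : ℕ} (b b' : SLm m) (hb : Upper (mat b))
    (hb' : Upper (mat b')) (h : b = b') (p : Tot m) : conjTot b hb p = conjTot b' hb' p := by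
  subst h
  rfl

private theorem Rd_conj_smul {m : ℕ} (b : SLm m) (c : ℂ) (y : Gl m) :
    c • (mat b⁻¹ * (y * mat b)) = mat b⁻¹ * ((c • y) * mat b) := by
  rw [smul_mul_assoc, mul_smul_comm]

private theorem Rd_cN_mul {m : ℕ} (b b' : Bo m) (ν : Nn m) : cN b' (cN b ν) = cN (b * b') ν :=
  Rd_conjN_mul b.1 b'.1 b.2 b'.2 (b * b').2 ν

private theorem Rd_cN_one {m : ℕ} (ν : Nn m) : cN 1 ν = ν := Rd_conjN_one _ _ rfl ν

private theorem Rd_reg_conj {X : Type} [Co X] {m : ℕ} {g : X → SLm m} (hg : Mor g)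
    (hg' : Mor fun x => (g x)⁻¹) (hu : ∀ x, Upper (mat (g x))) (p : Tot m) :
    Reg fun x => conjTot (g x) (hu x) p :=
  Rd_regTot (Rd_mul (Rd_of hg') (Rd_mul (Rd_const (matS p.1)) (Rd_of hg)))
    (Rd_mul (Rd_of hg') (Rd_mul (Rd_const (matN p.2)) (Rd_of hg)))

/-! ### Normal forms -/

private theorem Rd_low_low {m : ℕ} (y : Gl m) : low (low y) = low y := by
  funext a b
  change (if b < a then (if b < a then y a b else 0) else 0) = if b < a then y a b else 0
  split_ifs <;> rfl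

private theorem Rd_upp_low {m : ℕ} (y : Gl m) : upp (low y) = 0 := by
  funext a b
  change (if b < a then 0 else (if b < a then y a b else 0)) = (0 : ℂ)
  split_ifs <;> rfl

private theorem Rd_red_red {m : ℕ} (ν ν' : Nn m) (p : Tot m) : red ν' (red ν p) = red ν p := by
  refine Prod.ext (Subtype.ext ?_) (Subtype.ext ?_)
  · exact Rd_low_low (matS p.1)
  · change matN (red ν p).2 - (matN ν' * upp (low (matS p.1)) - upp (low (matS p.1)) * matN ν') =
      matN (red ν p).2
    rw [Rd_upp_low, mul_zero, zero_mul, sub_zero, sub_zero]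

private theorem Rd_red_dil {m : ℕ} (c : ℂ) (ν : Nn m) (p : Tot m) :
    red (scN c ν) (dilTot c p) = dilTot c (red ν p) := by
  refine Prod.ext (Subtype.ext ?_) (Subtype.ext ?_)
  · rfl
  · change c • matN p.2 - ((c • matN ν) * upp (matS p.1) - upp (matS p.1) * (c • matN ν)) =
      c • (matN p.2 - (matN ν * upp (matS p.1) - upp (matS p.1) * matN ν))
    rw [smul_sub, smul_sub, smul_mul_assoc, mul_smul_comm]

private theorem Rd_red_Ad {m : ℕ} (b : Bo m) (ν : Nn m) (p : Tot m) :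
    red ν (Ad b (red (cN b ν) p)) = red ν (Ad b p) := by
  have h1 := red_sub_mem (cN b ν) p
  have h2 := orb_conj (b⁻¹ : Bo m).1 (b⁻¹ : Bo m).2 (cN b ν) h1
  have h3 : conjN (b⁻¹ : Bo m).1 (b⁻¹ : Bo m).2 (cN b ν) = ν := by
    have h4 := Rd_cN_mul b b⁻¹ ν
    rw [mul_inv_cancel, Rd_cN_one] at h4
    exact h4
  rw [h3] at h2
  have h5 : red ν (Ad b (p - red (cN b ν) p)) = 0 := LinearMap.mem_ker.1 (red_orb ν h2)
  rw [map_sub, map_sub, sub_eq_zero] at h5
  exact h5.symm

private theorem Rd_reg_red {m : ℕ} (p : Tot m) : Reg fun ν : Nn m => red ν p :=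
  Rd_regTot (Rd_const (low (matS p.1)))
    (Rd_sub (Rd_const (matN p.2))
      (Rd_sub (Rd_mul (Rd_nn Mor.id) (Rd_const (upp (matS p.1))))
        (Rd_mul (Rd_const (upp (matS p.1))) (Rd_nn Mor.id))))

theorem tRd : S_Mor → S_Rd := by
  intro hMor m
  obtain ⟨-, hinv, -, hinvB, hB, -⟩ := hMor m
  have hBi : Mor fun b : Bo m => ((b⁻¹ : Bo m).1 : SLm m) := hB.comp hinvB
  refine ⟨Rd_red_red, Rd_red_dil, Rd_red_Ad, fun j w => ⟨?_, ?_, ?_⟩,
    fun b b' p c => ⟨?_, ?_, ?_, ?_⟩, fun b b' ν c => ⟨?_, ?_, ?_⟩, ?_⟩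
  · exact Rd_wedge j (fun p => Rd_reg_red p) w
  · exact Rd_wedge j (θ := fun b : Bo m => Ad b)
      (fun p => Rd_reg_conj hBi (hinv.comp hBi) (fun b => (b⁻¹ : Bo m).2) p) w
  · exact Rd_wedge j (θ := fun b : Bo m => conjTot b.1 b.2)
      (fun p => Rd_reg_conj hB (hinv.comp hB) (fun b => b.2) p) w
  · have h1 := Rd_conjTot_mul (b'⁻¹ : Bo m).1 (b⁻¹ : Bo m).1 (b'⁻¹ : Bo m).2 (b⁻¹ : Bo m).2
      (b'⁻¹ * b⁻¹ : Bo m).2 p
    have h2 : ((b'⁻¹ : Bo m).1 * (b⁻¹ : Bo m).1 : SLm m) = ((b * b')⁻¹ : Bo m).1 := by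
      rw [_root_.mul_inv_rev]
      rfl
    exact h1.trans (Rd_conjTot_congr _ _ _ _ h2 p)
  · refine Rd_conjTot_one _ _ ?_ p
    rw [inv_one]
    rfl
  · refine Prod.ext (Subtype.ext ?_) (Subtype.ext ?_)
    · rfl
    · exact Rd_conj_smul _ c (matN p.2)
  · have h1 := Rd_conjTot_mul b.1 (b⁻¹ : Bo m).1 b.2 (b⁻¹ : Bo m).2 (b * b⁻¹ : Bo m).2 p
    refine h1.trans (Rd_conjTot_one _ _ ?_ p)
    have h2 : (b * b⁻¹ : Bo m) = 1 := mul_inv_cancel b
    exact congrArg Subtype.val h2
  · exact Rd_cN_mul b b' ν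
  · exact Rd_cN_one ν
  · exact Subtype.ext (Rd_conj_smul _ c (matN ν)).symm
  · have h1 : Mor fun q : Bo m × Nn m => (q.1.1 : SLm m) := hB.comp Mor.fst
    have h2 : Mor fun q : Bo m × Nn m => ((q.1.1 : SLm m)⁻¹ : SLm m) := hinv.comp h1
    have h3 := Rd_mul (Rd_of h2) (Rd_mul (Rd_nn (Mor.snd (X := Bo m) (Y := Nn m))) (Rd_of h1))
    exact fun i => h3 i.1 i.2

end PV
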