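import Pool.Agent.Lib.MP_3b3418_ag.PV.SpecM

set_option autoImplicit false

namespace PV

open MP3s

section Ts

variable {m : ℕ} (b : Fin m → Fin m → ℤ)

private theorem Ts_inner (h0 : ∀ v, b v v = 0) (h1 : ∀ v w, v ≠ w → b v w + b w v = 1)
    (S : Finset (Fin m)) : 2 * ∑ v ∈ S, ∑ w ∈ S, b v w = (S.card : ℤ) * (S.card - 1) := by
  classical
  have e1 : ∑ v ∈ S, ∑ w ∈ S, b v w = ∑ v ∈ S, ∑ w ∈ S, b w v := Finset.sum_comm
  have e2 : 2 * ∑ v ∈ S, ∑ w ∈ S, b v w = ∑ v ∈ S, ∑ w ∈ S, (b v w + b w v) := by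
    simp only [Finset.sum_add_distrib]
    rw [← e1]
    ring
  rw [e2]
  have e3 : ∀ v ∈ S, ∑ w ∈ S, (b v w + b w v) = (S.card : ℤ) - 1 := by
    intro v hv
    have e4 : ∀ w ∈ S, b v w + b w v = 1 - if w = v then 1 else 0 := by
      intro w _
      by_cases h : w = v
      · subst h
        simp [h0]
      · rw [h1 v w (Ne.symm h)]
        simp [h]
    rw [Finset.sum_congr rfl e4, Finset.sum_sub_distrib]
    simp [hv]
  rw [Finset.sum_congr rfl e3, Finset.sum_const, nsmul_eq_mul]

private theorem Ts_le1 (h0 : ∀ v, b v v = 0) (hn : ∀ v w, 0 ≤ b v w)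
    (h1 : ∀ v w, v ≠ w → b v w + b w v = 1) (v w : Fin m) : b v w ≤ 1 := by
  by_cases h : v = w
  · subst h
    rw [h0]
    exact zero_le_one
  · have h2 := h1 v w h
    have h3 := hn w v
    linarith

private theorem Ts_le (h0 : ∀ v, b v v = 0) (hn : ∀ v w, 0 ≤ b v w)
    (h1 : ∀ v w, v ≠ w → b v w + b w v = 1) (v : Fin m) : ∑ x, b v x ≤ (m : ℤ) - 1 := by
  classical
  have h2 : ∑ x, b v x ≤ ∑ x : Fin m, ((1 : ℤ) - if x = v then 1 else 0) := by
    refine Finset.sum_le_sum fun x _ => ?_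
    by_cases h : x = v
    · subst h
      simp [h0]
    · simp only [h, if_false, sub_zero]
      exact Ts_le1 b h0 hn h1 v x
  refine h2.trans (le_of_eq ?_)
  rw [Finset.sum_sub_distrib]
  simp

private theorem Ts_le2 (h0 : ∀ v, b v v = 0) (hn : ∀ v w, 0 ≤ b v w)
    (h1 : ∀ v w, v ≠ w → b v w + b w v = 1) (v w : Fin m) (hvw : v ≠ w) :
    ∑ x, b v x ≤ b v w + ((m : ℤ) - 2) := by
  classical
  have h2 : ∑ x, b v x ≤ ∑ x : Fin m, ((1 : ℤ) - (if x = v then 1 else 0) +
      if x = w then (b v w - 1) else 0) := by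
    refine Finset.sum_le_sum fun x _ => ?_
    by_cases h : x = v
    · subst h
      simp [h0, hvw]
    · by_cases h3 : x = w
      · subst h3
        simp [h]
      · simp only [h, h3, if_false, sub_zero, add_zero]
        exact Ts_le1 b h0 hn h1 v x
  refine h2.trans (le_of_eq ?_)
  rw [Finset.sum_add_distrib, Finset.sum_sub_distrib]
  simp
  ring

private theorem Ts_top (h0 : ∀ v, b v v = 0) (hn : ∀ v w, 0 ≤ b v w)
    (h1 : ∀ v w, v ≠ w → b v w + b w v = 1)
    (hi : Function.Injective fun v => ∑ x, b v x) (v₀ w₀ : Fin m)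
    (hlt : ∑ x, b w₀ x < ∑ x, b v₀ x) : b w₀ v₀ = 0 := by
  classical
  have hs0 : ∀ v, 0 ≤ ∑ x, b v x := fun v => Finset.sum_nonneg fun x _ => hn v x
  have hs1 : ∀ v, ∑ x, b v x ≤ (m : ℤ) - 1 := Ts_le b h0 hn h1
  have hlt' : ∀ v, (∑ x, b v x).toNat < m := by
    intro v
    have h2 := hs0 v
    have h3 := hs1 v
    omega
  let f : Fin m → Fin m := fun v => ⟨(∑ x, b v x).toNat, hlt' v⟩
  have hf : ∀ v, ((f v).val : ℤ) = ∑ x, b v x := fun v => Int.toNat_of_nonneg (hs0 v)
  have hfi : Function.Injective f := by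
    intro v w h
    apply hi
    beta_reduce
    rw [← hf v, ← hf w, h]
  have hfb : Function.Bijective f := Finite.injective_iff_bijective.1 hfi
  set t : ℕ := (f v₀).val with ht
  have htm : t ≤ m := (f v₀).2.le
  set L : Finset (Fin m) := Finset.univ.filter fun v => (f v).val < t with hL
  -- the sum over L
  have hcard : L.card = t := by
    have e1 : L.card = ∑ v, (if (f v).val < t then 1 else 0) := by
      rw [hL, Finset.card_filter]
    have e2 : ∑ v, (if (f v).val < t then 1 else 0) = ∑ x : Fin m, if x.val < t then 1 else 0 :=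
      hfb.sum_comp fun x : Fin m => if x.val < t then 1 else 0
    rw [e1, e2, ← Finset.card_filter, Fin.card_filter_val_lt]
    exact min_eq_right htm
  have hsum : 2 * ∑ v ∈ L, ∑ x, b v x = (t : ℤ) * (t - 1) := by
    have e1 : ∑ v ∈ L, ∑ x, b v x = ∑ v, (if (f v).val < t then ((f v).val : ℤ) else 0) := by
      rw [hL, Finset.sum_filter]
      exact Finset.sum_congr rfl fun v _ => by rw [hf]
    have e2 : ∑ v, (if (f v).val < t then ((f v).val : ℤ) else 0) =
        ∑ x : Fin m, if x.val < t then (x.val : ℤ) else 0 :=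
      hfb.sum_comp fun x : Fin m => if x.val < t then (x.val : ℤ) else 0
    have e3 : ∑ x : Fin m, (if x.val < t then (x.val : ℤ) else 0) =
        ∑ i ∈ Finset.range m, if i < t then (i : ℤ) else 0 :=
      Fin.sum_univ_eq_sum_range (fun i => if i < t then (i : ℤ) else 0) m
    have e4 : ∑ i ∈ Finset.range m, (if i < t then (i : ℤ) else 0) =
        ∑ i ∈ Finset.range t, (i : ℤ) := by
      rw [← Finset.sum_filter]
      refine Finset.sum_congr ?_ fun _ _ => rfl
      ext i
      simp only [Finset.mem_filter, Finset.mem_range]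
      omega
    have e5 : ∀ n : ℕ, 2 * ∑ i ∈ Finset.range n, (i : ℤ) = (n : ℤ) * (n - 1) := by
      intro n
      induction n with
      | zero => simp
      | succ n ih =>
        rw [Finset.sum_range_succ, mul_add, ih]
        push_cast
        ring
    rw [e1, e2, e3, e4, e5]
  have hin := Ts_inner b h0 h1 L
  rw [hcard] at hin
  have hsplit : ∑ v ∈ L, ∑ x, b v x = ∑ v ∈ L, ∑ w ∈ L, b v w + ∑ v ∈ L, ∑ w ∈ Lᶜ, b v w := by
    rw [← Finset.sum_add_distrib]
    exact Finset.sum_congr rfl fun v _ => (Finset.sum_add_sum_compl L _).symm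
  have hz : ∑ v ∈ L, ∑ w ∈ Lᶜ, b v w = 0 := by linarith
  have hw : w₀ ∈ L := by
    rw [hL, Finset.mem_filter]
    refine ⟨Finset.mem_univ _, ?_⟩
    have h2 := hf w₀
    have h3 := hf v₀
    rw [ht]
    omega
  have hv : v₀ ∈ Lᶜ := by
    rw [Finset.mem_compl, hL, Finset.mem_filter]
    intro h
    exact lt_irrefl _ h.2
  have h4 : b w₀ v₀ ≤ ∑ w ∈ Lᶜ, b w₀ w :=
    Finset.single_le_sum (f := fun w => b w₀ w) (fun w _ => hn w₀ w) hv
  have h5 : ∑ w ∈ Lᶜ, b w₀ w ≤ ∑ v ∈ L, ∑ w ∈ Lᶜ, b v w :=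
    Finset.single_le_sum (f := fun v => ∑ w ∈ Lᶜ, b v w)
      (fun v _ => Finset.sum_nonneg fun w _ => hn v w) hw
  have h6 := hn w₀ v₀
  linarith

end Ts

theorem tTs : S_Bt → S_Ts := by
  classical
  intro hB m A
  obtain ⟨hc, ha, hi, _⟩ := hB m A
  let b : Fin m → Fin m → ℤ := fun v w => if Bt A v w then 1 else 0
  have h0 : ∀ v, b v v = 0 := fun v => if_neg (hi v)
  have hn : ∀ v w, 0 ≤ b v w := by
    intro v w
    change 0 ≤ (if Bt A v w then (1 : ℤ) else 0)
    split <;> norm_num
  have h1 : ∀ v w, v ≠ w → b v w + b w v = 1 := by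
    intro v w hvw
    change (if Bt A v w then (1 : ℤ) else 0) + (if Bt A w v then (1 : ℤ) else 0) = 1
    by_cases h : Bt A v w
    · rw [if_pos h, if_neg ((ha v w hvw).1 h), add_zero]
    · have h2 : Bt A w v := by
        by_contra h3
        exact h ((ha v w hvw).2 h3)
      rw [if_neg h, if_pos h2, zero_add]
  have hs : ∀ v, sc A v = ∑ w, b v w := by
    intro v
    rw [hc v, Finset.card_filter]
    push_cast
    exact Finset.sum_congr rfl fun w _ => by
      change (if _ then (1 : ℤ) else 0) = if _ then (1 : ℤ) else 0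
      split_ifs <;> rfl
  refine ⟨fun v => ⟨?_, ?_⟩, ?_, ?_, ?_, ?_, ?_⟩
  · rw [hs]
    exact Finset.sum_nonneg fun w _ => hn v w
  · rw [hs]
    exact Ts_le b h0 hn h1 v
  · intro v w hvw h
    rw [hs] at h ⊢
    have h2 := Ts_le2 b h0 hn h1 v w hvw
    have h3 := Ts_le2 b h0 hn h1 w v (Ne.symm hvw)
    have h4 := h1 v w hvw
    linarith
  · intro v w hvw h
    rw [hs] at h ⊢
    have h2 : b v w ≤ ∑ x, b v x :=
      Finset.single_le_sum (f := fun x => b v x) (fun x _ => hn v x) (Finset.mem_univ w)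
    have h3 : b w v ≤ ∑ x, b w x :=
      Finset.single_le_sum (f := fun x => b w x) (fun x _ => hn w x) (Finset.mem_univ v)
    have h4 := h1 v w hvw
    linarith
  · have h2 := Ts_inner b h0 h1 Finset.univ
    rw [Finset.card_univ, Fintype.card_fin] at h2
    rw [← h2]
    congr 1
    exact Finset.sum_congr rfl fun v _ => hs v
  · intro r hr
    have h2 := Ts_inner b h0 h1 (Finset.univ.filter fun v : Fin m => v.val < r)
    rw [Fin.card_filter_val_lt, min_eq_right hr] at h2
    rw [← h2]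
    refine mul_le_mul_of_nonneg_left ?_ (by norm_num)
    refine Finset.sum_le_sum fun v _ => ?_
    rw [hs]
    exact Finset.sum_le_sum_of_subset_of_nonneg (Finset.subset_univ _) fun w _ _ => hn v w
  · intro hinj
    have hinj' : Function.Injective fun v => ∑ x, b v x := by
      have e : (fun v => ∑ x, b v x) = sc A := funext fun v => (hs v).symm
      rw [e]
      exact hinj
    have key : ∀ v w, v ≠ w → (Bt A w v ↔ sc A v < sc A w) := by
      intro v w hvw
      constructor
      · intro h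
        by_contra h2
        have h3 : sc A w < sc A v := lt_of_le_of_ne (not_lt.1 h2) fun h4 => hvw (hinj h4).symm
        rw [hs, hs] at h3
        have h4 := Ts_top b h0 hn h1 hinj' v w h3
        have h5 : b w v = 1 := if_pos h
        rw [h5] at h4
        exact one_ne_zero h4
      · intro h
        rw [hs, hs] at h
        have h4 := Ts_top b h0 hn h1 hinj' w v h
        have h5 := h1 v w hvw
        rw [h4, zero_add] at h5
        by_contra h6
        have h7 : b w v = 0 := if_neg h6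
        rw [h7] at h5
        exact zero_ne_one h5
    have hset : (Finset.univ.filter fun p : Fin m × Fin m => p.1 < p.2 ∧ sc A p.1 < sc A p.2) =
        A.map ⟨Subtype.val, Subtype.val_injective⟩ := by
      ext p
      obtain ⟨x, y⟩ := p
      simp only [Finset.mem_filter, Finset.mem_univ, true_and, Finset.mem_map,
        Function.Embedding.coeFn_mk]
      constructor
      · rintro ⟨hxy, h⟩
        have h2 := (key x y (ne_of_lt hxy)).2 h
        rcases h2 with ⟨h3, _⟩ | ⟨h3, h4⟩
        · exact absurd hxy (not_lt.2 h3.le)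
        · exact ⟨_, h4, rfl⟩
      · rintro ⟨q, hq, hqe⟩
        obtain ⟨⟨x', y'⟩, hq'⟩ := q
        obtain ⟨rfl, rfl⟩ := Prod.mk.inj hqe
        exact ⟨hq', (key x' y' (ne_of_lt hq')).1 (Or.inr ⟨hq', hq⟩)⟩
    unfold invn
    rw [hset, Finset.card_map]

end PV
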