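import Pool.Agent.Lib.MP_3b3418_ag.PV.SpecM

/-!
# From cochains of the Borel subgroup to cochains on the Springer resolution
-/

set_option autoImplicit false

namespace PV

open MP3s

/-- A regular family of regular functions is regular in both variables jointly. -/
private theorem BB_unc {X Y Z V : Type} [Co X] [Co Y] [Co Z] [AddCommGroup V] [Module ℂ V]
    (U : Submodule ℂ (Y → V)) (hU : ∀ u ∈ U, Reg u) (f : X → U) (hf : Reg f) (gx : Z → X)
    (hgx : Mor gx) (gy : Z → Y) (hgy : Mor gy) : Reg fun z => (f (gx z)).1 (gy z) := by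
  obtain ⟨n, a, v, ha, h⟩ := hf
  have h1 : Reg fun z : Z => ∑ k : Fin n, a k (gx z) • (v k).1 (gy z) :=
    Reg.sum Finset.univ fun k _ => ((hU (v k).1 (v k).2).comp hgy).smul ((ha k).comp hgx)
  have h2 : (fun z : Z => (f (gx z)).1 (gy z)) =
      fun z : Z => ∑ k : Fin n, a k (gx z) • (v k).1 (gy z) := by
    funext z
    rw [h, Submodule.coe_sum, Finset.sum_apply]
    rfl
  rw [h2]
  exact h1

private theorem BB_Ad {m : ℕ} (b : Bo m) : Ad b⁻¹ = conjTot b.1 b.2 := by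
  change (fun c : Bo m => conjTot c.1 c.2) b⁻¹⁻¹ = _
  rw [inv_inv]

theorem tBB : S_Mor → S_Rd → S_BB := by
  intro _ hRd m j p k ρM hM θ hθ φ hφ
  have hreg : Reg fun y : SLm m × Nn m × (Fin (p + 1) → Bo m) =>
      ((φ y.2.2).1 y.1).1 y.2.1 := by
    have h1 : Reg fun y : SLm m × Nn m × (Fin (p + 1) → Bo m) => (φ y.2.2).1 y.1 :=
      BB_unc (RG m (Mjk m j k)) (fun u hu => hu) φ hφ.1
        (fun y : SLm m × Nn m × (Fin (p + 1) → Bo m) => y.2.2) (Mor.snd.comp Mor.snd)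
        (fun y : SLm m × Nn m × (Fin (p + 1) → Bo m) => y.1) Mor.fst
    exact BB_unc (Mjk m j k) (fun u hu => hu.1)
      (fun y : SLm m × Nn m × (Fin (p + 1) → Bo m) => (φ y.2.2).1 y.1) h1 (fun y => y) Mor.id
      (fun y => y.2.1) (Mor.fst.comp Mor.snd)
  have heq : ∀ (b : Bo m) (g : SLm m) (ν : Nn m) (β : Fin (p + 1) → Bo m),
      wL j (proj (conjN b.1 b.2 ν)) (((φ fun r => b⁻¹ * β r).1 (g * b.1)).1 (conjN b.1 b.2 ν)) =
        wmap j (conjT b.1 b.2 ν) (wL j (proj ν) (((φ β).1 g).1 ν)) := by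
    intro b g ν β
    have h1 := hφ.2 b⁻¹ β
    have h2 := hθ b⁻¹ (φ β) (g * b.1)
    have h3 : g * b.1 * (b⁻¹ : Bo m).1 = g := mul_inv_cancel_right g b.1
    rw [h3] at h2
    have h4 := hM b⁻¹ ((φ β).1 g) (conjN b.1 b.2 ν)
    have h5 : cN b⁻¹ (conjN b.1 b.2 ν) = ν := by
      have h6 := ((hRd m).2.2.2.2.2.1 b b⁻¹ ν 1).1
      have h7 := ((hRd m).2.2.2.2.2.1 b b⁻¹ ν 1).2.1
      rw [mul_inv_cancel, h7] at h6
      exact h6
    rw [h5] at h4
    rw [h1, h2, h4, wmap_eq, wL_comp, wL_comp, wL_comp, BB_Ad]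
    have h8 : (proj (conjN b.1 b.2 ν) ∘ₗ red (conjN b.1 b.2 ν)) ∘ₗ conjTot b.1 b.2 =
        conjT b.1 b.2 ν ∘ₗ proj ν := by
      refine LinearMap.ext fun q => ?_
      change proj (conjN b.1 b.2 ν) (red (conjN b.1 b.2 ν) (conjTot b.1 b.2 q)) = _
      rw [proj_red]
      rfl
    rw [h8]
  refine ⟨⟨fun g ν β => wL j (proj ν) (((φ β).1 g).1 ν), ⟨_, hreg, fun g ν β => rfl⟩, heq⟩,
    ?_, fun g ν β => rfl⟩
  intro c hc g ν β
  change wL j (proj (scN (c ^ 2) ν)) (((φ β).1 g).1 (scN (c ^ 2) ν)) =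
    c ^ k • wmap j (dilT (c ^ 2) ν) (wL j (proj ν) (((φ β).1 g).1 ν))
  rw [((φ β).1 g).2.2.2 c hc ν, map_smul, wmap_eq, wL_comp, wL_comp]
  rfl

end PV
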